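import Pool.Agent.N561.V.Mir
import Pool.Agent.N561.C.Stm
import Pool.Agent.TH563.CU.ValU

/-!
# Small vertices: the complex volume, statements
-/

set_option autoImplicit false

namespace Pool.Agent.N561.AX

open Finset Filter Topology Metric
open Pool.Agent.W711.HT hiding XX
open Pool.Agent.TH563.UV
open Pool.Agent.TH563.V
open Pool.Agent.TH563.UV.Arb
open Pool.Agent.TH563.CV
open Pool.Agent.TH563.CU (Unq)
open Pool.Agent.TH563.Z (SDZ Adm et)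
open scoped Real

/-- the potential `S` has the geometric meaning near `(0, z₀)`, also for the complex volume (as
`GEOS`) -/
def GEOC (z₀ : ℂ) (S : ℂ → ℂ → ℂ) : Prop := ∃ g : ℝ, 0 < g ∧ ∀ ψ φ : ℂ, ‖ψ‖ ≤ g → ‖φ - z₀‖ ≤ g →
  ∃ δ : ℂ, EFW S ψ φ δ ∧ GP ψ φ (2 * π * δ) (S ψ φ) = -(π : ℂ) ^ 2 / 2

/-- job AXG1: the edges between a large and a small vertex (as `S_EDGE`) -/
def S_GPS : Prop := ∀ φ₀ ∈ GG, 0 ≤ φ₀.re → GEOC φ₀ sg

/-- job AXG2: the geometric meaning of the mirror image of the potential (as `S_MIRG`) -/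
def S_MIRGX : Prop := ∀ z₀ ∈ GG, 0 ≤ z₀.re → Real.exp (z₀.im / 2) * Real.sin (z₀.re / 2) < 1 →
  GEOC (-(starRingEnd ℂ) z₀) (mir2 sg)

/-- job AXG3: the hubs of weight zero -/
def S_GEOH : Prop := ∀ (η r c C : ℝ) (s dl : ℂ → ℂ → ℂ), Adm η → SDZ η r c C s dl →
  GEOC (η * Complex.I) s

/-- job AXG4: the clasp (as `S_CGEO`) -/
def S_CGEOX : Prop := GEOC (zc 0) sg

/-- job AXG5: the value at a critical configuration is the maximal volume of the angle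
structures, and the complex volume, which does not depend on the flattening (as `S_GEOG`, `S_GEOC`,
`S_GEOU`; general kinds) -/
def S_GEOX : Prop := ∀ (ρ τ κ c : ℝ) (s dl : ℂ → ℂ → ℂ), KD ρ τ κ c s dl →
  ∀ (kf : Bool → ℕ → ℤ → ℕ) (cen : ℕ → ℂ) (S : ℕ → ℂ → ℂ → ℂ) (D : ℕ),
  (∀ n a, kf true n a = 0) → (∀ b n a, kf b n a < D) →
  (∀ b n a, kf b n a ≠ 0 → GEOC (cen (kf b n a)) (S (kf b n a))) →
  ∃ g : ℝ, 0 < g ∧ ∀ p : PB, CG kf cen S s ρ τ g (kf p.bl p.nc p.wt) p →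
    VCG cen ρ τ g (kf p.bl p.nc p.wt) p.bl p.wt p.rz (gg kf S s (kf p.bl p.nc p.wt) p) →
    1 ≤ p.nc →
    IsGreatest {W : ℝ | ∃ y : AB, y.shape = p.shape ∧ y.IsAng ∧ y.vol = W}
      (2 * π * (vt p.bl p.wt p.rz + vg kf S s (kf p.bl p.nc p.wt) p).re) ∧
    ∀ t : Tree, p.shape = toTb t →
      IsComplexVolume t (2 * π * (vt p.bl p.wt p.rz + vg kf S s (kf p.bl p.nc p.wt) p).re)
        (vt p.bl p.wt p.rz + vg kf S s (kf p.bl p.nc p.wt) p + Complex.I * π -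
          Complex.I * π * (toTb t).ws / 4) ∧
      Unq t (2 * π * (vt p.bl p.wt p.rz + vg kf S s (kf p.bl p.nc p.wt) p).re)

end Pool.Agent.N561.AX
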