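import Pool.Agent.N561.V.Mir
import Pool.Agent.N561.C.Stm

/-!
# Small vertices: expansions to all orders, statements

As the files `A/Stm`, `V/Defs`, `V/Defs2`, `V/Mir`, with asymptotic expansions in powers of `1 / N`
in place of growth rates.
-/

set_option autoImplicit false

namespace Pool.Agent.N561.AX

open Finset Filter Topology Metric
open Pool.Agent.W711.HT hiding XX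
open Pool.Agent.TH563.UV
open Pool.Agent.TH563.V
open Pool.Agent.W719.AX (UX GX)
open scoped Real

/-! ### Continuation of expansions -/

/-- job AX1: an expansion of functions without zeros, valid on a small disc, is valid on a large
disc, uniformly in a parameter -/
def S_CONT : Prop := ∀ (c : ℂ) (r R' R : ℝ), 0 < r → r < R' → R' < R →
  ∀ (Q : Type) (S : Set Q) (Y : ℕ → ℂ × Q → ℂ) (F : ℂ × Q → ℂ) (n : ℕ → ℂ) (B c₀ : ℝ)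
    (A : ℕ → ℂ × Q → ℂ),
  (∀ᶠ N : ℕ in atTop, ∀ q ∈ S, DifferentiableOn ℂ (fun z => Y N (z, q)) (ball c R)) →
  (∀ q ∈ S, DifferentiableOn ℂ (fun z => F (z, q)) (ball c R)) →
  (∀ x ∈ ball c R ×ˢ S, ‖F x‖ ≤ B) →
  (∀ ε : ℝ, 0 < ε → ∀ᶠ N : ℕ in atTop, ∀ x ∈ ball c R ×ˢ S,
    Y N x ≠ 0 ∧ |Real.log ‖Y N x‖ - N * (F x).re| ≤ ε * N) →
  UX (fun N x => n N * Complex.exp (-(N * F x)) * Y N x) A (ball c r ×ˢ S) →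
  0 < c₀ → (∀ x ∈ ball c r ×ˢ S, c₀ ≤ ‖A 0 x‖) →
  ∃ (A' : ℕ → ℂ × Q → ℂ) (c₁ : ℝ), 0 < c₁ ∧
    UX (fun N x => n N * Complex.exp (-(N * F x)) * Y N x) A' (ball c R' ×ˢ S) ∧
    (∀ k, ∀ q ∈ S, DifferentiableOn ℂ (fun z => A' k (z, q)) (ball c R')) ∧
    ∀ x ∈ ball c R' ×ˢ S, c₁ ≤ ‖A' 0 x‖

/-- the lower half of the kernel has an expansion near `(0, φ₀)` -/
def KXAt (φ₀ : ℂ) : Prop := ∃ (ρ₂ v : ℝ) (A : ℕ → ℂ × ℂ → ℂ), 0 < v ∧ ball φ₀ v ⊆ GG ∧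
  KXG ρ₂ ρ₂ (ball φ₀ v) k0 sg A

/-- job AX3: the expansion near one point of the imaginary axis -/
def S_KXB : Prop := ∃ η : ℝ, ((η : ℂ) * Complex.I) ∈ GG ∧ KXAt (η * Complex.I)

/-- job AX2: the expansion near every point of `GG` -/
def S_KXS : Prop := ∀ φ₀ ∈ GG, KXAt φ₀

/-! ### The outer integral -/

/-- job AX4: asymptotic expansion of the outer integral on a staircase path, uniformly in a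
parameter `p` (as `S_OUT` and `S_HX`) -/
def S_OUTX : Prop := ∀ (a : ℤ) (x₁ x₂ y₁ τ₁ : ℝ), 0 < x₂ → x₂ ≤ x₁ → x₁ < π → 0 < τ₁ → τ₁ ≤ y₁ →
  ∀ (K V U : Set ℂ), IsCompact K → V ⊆ K → IsOpen U →
  ∀ (P PL : ℕ → ℂ → ℂ → ℂ) (Φ : ℂ → ℂ → ℂ) (z : ℂ → ℂ) (n : ℕ → ℂ),
  (∀ N, ∀ p ∈ K, Differentiable ℂ (P N p)) → (∀ N, ∀ p ∈ K, Differentiable ℂ (PL N p)) →
  (∀ p ∈ K, DifferentiableOn ℂ (Φ p) U) →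
  ContinuousOn (fun x : ℂ × ℂ => Φ x.1 x.2) (K ×ˢ U) → ContinuousOn z K →
  (∀ ε : ℝ, 0 < ε → ∀ W ⊆ U, IsCompact W → ∀ᶠ N : ℕ in atTop, ∀ p ∈ K, ∀ φ ∈ W,
    PL N p φ ≠ 0 ∧ |Real.log ‖PL N p φ‖ - N * (Φ p φ).re| ≤ ε * N) →
  (∀ p ∈ K, y₁ ≤ (z p).im ∧ |(z p).re| < x₂ ∧ Pth x₁ x₂ y₁ (z p).im τ₁ ⊆ U ∧
    deriv (qq a (Φ p)) (z p) = 0 ∧ (deriv (deriv (qq a (Φ p))) (z p)).re < 0 ∧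
    ∀ w ∈ Pth x₁ x₂ y₁ (z p).im τ₁, w ≠ z p → (qq a (Φ p) w).re < (qq a (Φ p) (z p)).re) →
  (∃ κ : ℝ, 0 < κ ∧
    (∀ᶠ N : ℕ in atTop, ∀ p ∈ K, ∀ x y : ℝ, x₁ ≤ |x| → |x| ≤ π → |y| ≤ τ₁ →
      ‖PL N p (x + y * Complex.I)‖ ≤
        Real.exp (N * ((qq a (Φ p) (z p)).re - |(a : ℝ)| * τ₁ / 2 - κ))) ∧
    ∀ᶠ N : ℕ in atTop, ∀ p ∈ K, ∀ x y : ℝ, |x| ≤ π → |y| ≤ 1 / N →
      ‖P N p (x + y * Complex.I) - PL N p (x + y * Complex.I)‖ ≤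
        Real.exp (N * ((qq a (Φ p) (z p)).re - κ))) →
  (∀ ε : ℝ, 0 < ε → ∀ᶠ N : ℕ in atTop, ‖n N‖ ≤ Real.exp (ε * N)) →
  ∀ (V₀ : Set ℂ) (A : ℕ → ℂ × ℂ → ℂ), IsOpen V₀ → V₀ ⊆ U → (∀ p ∈ K, z p ∈ V₀) →
  UX (fun (N : ℕ) (x : ℂ × ℂ) => n N * Complex.exp (-(N * Φ x.1 x.2)) * PL N x.1 x.2) A
    (V ×ˢ V₀) →
  (∀ i, ∀ p ∈ V, DifferentiableOn ℂ (fun φ => A i (p, φ)) V₀) →
  (∀ x ∈ V ×ˢ V₀, A 0 x ≠ 0) →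
  ∃ B : ℕ → ℂ → ℂ, (∀ p ∈ V, B 0 p ≠ 0) ∧
    UX (fun (N : ℕ) (p : ℂ) => n N * (Real.sqrt N : ℂ) * (-1) ^ N *
      Complex.exp (-(N * qq a (Φ p) (z p))) * upp (1 / N) fun φ => Ea a N φ * P N p φ * kr N φ)
      B V

/-! ### The step at a small vertex -/

/-- job AX5: the step at a small vertex, as a child and as the root (as `S_SMALL`); `v` is the
radius of a disc around `z₀` on which the functions of the children have expansions -/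
def S_SMALLX : Prop := ∀ (n : ℕ) (a : ℤ) (z₀ : ℂ) (x₁ x₂ y₁ : ℝ), 1 ≤ n →
  PathD n a z₀ x₁ x₂ y₁ → ∀ g : ℝ, 0 < g →
  ∃ (U : Set ℂ) (v τ₁ ε₁ ε₂ ρ τ κ c C ρ₂ : ℝ) (Ak : ℕ → ℂ × ℂ → ℂ),
  0 < v ∧ v ≤ g ∧ closedBall z₀ (2 * v) ⊆ U ∧ 0 < τ₁ ∧ 0 < ε₁ ∧ 0 < ε₂ ∧ U ⊆ GG ∧
  ED ρ τ κ c C U k0 sg ∧ RBk x₁ τ₁ ε₂ ∧ KXG ρ₂ ρ₂ (ball z₀ (2 * v)) k0 sg Ak ∧
  (∃ r₂ c₁ C₁ : ℝ, 0 < r₂ ∧ r₂ ≤ ρ ∧ r₂ ≤ τ ∧ r₂ ≤ ρ₂ ∧ 0 < c₁ ∧ 0 < C₁ ∧ ∀ a₀ b₀ : ℝ, 0 < b₀ →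
    b₀ ≤ a₀ → 3 * a₀ ≤ r₂ → ∃ κ₁ : ℝ, 0 < κ₁ ∧ ∀ (X XL : ℕ → ℂ → ℂ) (f : ℂ) (Φ : ℂ → ℂ),
    PSm U x₁ τ₁ ε₁ ε₂ (n - 1) X XL f Φ → ∃ F zs : ℂ → ℂ,
      GoodV a₀ b₀ κ₁ c₁ C₁ 1 (stp a X) F ∧
      (∀ (m : ℕ) (A : ℕ → ℂ → ℂ), GXG (ball z₀ (2 * v)) m XL Φ A →
        ∃ A' : ℕ → ℂ → ℂ, GX a₀ b₀ (m + 1) (stp a X) F A') ∧
      ∀ ψ ∈ Rc (3 * a₀) (3 * b₀), ‖zs ψ - z₀‖ ≤ v ∧ zs ψ ∈ U ∧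
        Complex.I * a * zs ψ / (2 * π) + Complex.I + deriv Φ (zs ψ) +
          deriv (fun w => sg ψ w) (zs ψ) = 0 ∧
        F ψ = qq a Φ (zs ψ) + sg ψ (zs ψ) ∧
        HasDerivAt F (deriv (fun w => sg w (zs ψ)) ψ) ψ) ∧
  ∀ (X XL : ℕ → ℂ → ℂ) (f : ℂ) (Φ : ℂ → ℂ), PSm U x₁ τ₁ ε₁ ε₂ n X XL f Φ →
    ∃ z : ℂ, ‖z - z₀‖ ≤ v ∧ z ∈ U ∧ Complex.I * a * z / (2 * π) + Complex.I + deriv Φ z = 0 ∧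
      Tendsto (fun N : ℕ => Real.log ‖upp (1 / N) fun φ => Ea a N φ * X N φ * kr N φ‖ / N) atTop
        (𝓝 (qq a Φ z).re) ∧
      ∀ (m : ℕ) (A : ℕ → ℂ → ℂ), GXG (ball z₀ (2 * v)) m XL Φ A → ∃ y : ℕ → ℂ, y 0 ≠ 0 ∧
        UX (fun N (_ : Unit) => (N : ℂ) ^ (2 * m) * (Real.sqrt N : ℂ) * (-1) ^ (N * (m + 1)) *
          Complex.exp (-(N * qq a Φ z)) * upp (1 / N) fun φ => Ea a N φ * X N φ * kr N φ)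
          (fun k _ => y k) Set.univ

/-- job AX6: a large or encircled child of a small vertex (as `S_KIDS`) -/
def S_KIDSX : Prop := ∀ (U : Set ℂ) (x₁ τ₁ ε₁ ε₂ ρ τ κ c C : ℝ), 0 < x₁ → x₁ < π → 0 < τ₁ →
  0 < ε₁ → 0 < ε₂ → U ⊆ GG → ED ρ τ κ c C U k0 sg → RBk x₁ τ₁ ε₂ →
  ∀ (ρ₂ : ℝ) (z₀ : ℂ) (v : ℝ) (Ak : ℕ → ℂ × ℂ → ℂ), ρ ≤ ρ₂ → τ ≤ ρ₂ → 0 < v →
  closedBall z₀ (2 * v) ⊆ U → KXG ρ₂ ρ₂ (ball z₀ (2 * v)) k0 sg Ak → ∀ r₀ κ₁ c₁ C₁ : ℝ, 0 < r₀ →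
  0 < κ₁ → 0 < c₁ → 0 < C₁ →
  ∃ K : ℝ, 0 < K ∧ ∀ (t m : ℕ) (X : ℕ → ℂ → ℂ) (F : ℂ → ℂ) (A : ℕ → ℂ → ℂ),
    GoodV ρ τ κ₁ c₁ C₁ t X F → GX ρ τ m X F A →
    ∀ (b : Bool) (a : ℤ), (b = false → K ^ 2 ≤ ((t + 1 : ℕ) : ℝ) ^ 2 + (a : ℝ) ^ 2) →
    ∃ (YL : ℕ → ℂ → ℂ) (f₀ : ℂ) (F' zs : ℂ → ℂ) (A' : ℕ → ℂ → ℂ),
      PSm U x₁ τ₁ ε₁ ε₂ 1 (stpb b a X) YL f₀ F' ∧ GXG (ball z₀ (2 * v)) (m + 1) YL F' A' ∧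
      ∀ φ ∈ U, zs φ ∈ Rc (3 * ρ) (3 * τ) ∧ ‖zs φ‖ ≤ r₀ ∧ (b = true → zs φ = 0) ∧
        (b = false → CPu ρ τ r₀ (zs φ) ∧ Complex.I * a * zs φ / (2 * π) + Complex.I +
          deriv F (zs φ) + deriv (fun w => sg w φ) (zs φ) = 0) ∧
        F' φ = vt b a (zs φ) + F (zs φ) + sg (zs φ) φ ∧
        HasDerivAt F' (deriv (fun w => sg (zs φ) w) φ) φ

/-! ### Packages -/

/-- as `KPG`, with expansions.  `P j m X Φ` says that `X` is a product over `j` neighbours, with `m`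
edges, with the potential `Φ`, and `C m Y Φ` that `Y` belongs to one neighbour. -/
structure KPX (n : ℕ) (a : ℤ) (z₀ : ℂ) (g : ℝ) (S : ℂ → ℂ → ℂ) (U : Set ℂ)
    (P : ℕ → ℕ → (ℕ → ℂ → ℂ) → (ℂ → ℂ) → Prop) (C : ℕ → (ℕ → ℂ → ℂ) → (ℂ → ℂ) → Prop)
    (r₂ c₁ C₁ : ℝ) : Prop where
  hr₂ : 0 < r₂
  hc₁ : 0 < c₁
  hC₁ : 0 < C₁
  zero : P 0 0 (fun _ _ => 1) (fun _ => 0)
  succ : ∀ (j m m' : ℕ) (X Y : ℕ → ℂ → ℂ) (Φ Φ' : ℂ → ℂ), P j m X Φ → C m' Y Φ' →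
    P (j + 1) (m + m') (fun N φ => X N φ * Y N φ) (fun φ => Φ φ + Φ' φ)
  step : ∀ a₀ b₀ : ℝ, 0 < b₀ → b₀ ≤ a₀ → 3 * a₀ ≤ r₂ → ∃ κ₁ : ℝ, 0 < κ₁ ∧
    ∀ (m : ℕ) (X : ℕ → ℂ → ℂ) (Φ : ℂ → ℂ), P (n - 1) m X Φ →
      ∃ (F zs : ℂ → ℂ) (A : ℕ → ℂ → ℂ),
      GoodV a₀ b₀ κ₁ c₁ C₁ 1 (stp a X) F ∧ GX a₀ b₀ (m + 1) (stp a X) F A ∧
      ∀ ψ ∈ Rc (3 * a₀) (3 * b₀), ‖zs ψ - z₀‖ ≤ g ∧ zs ψ ∈ U ∧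
        Complex.I * a * zs ψ / (2 * π) + Complex.I + deriv Φ (zs ψ) +
          deriv (fun w => S ψ w) (zs ψ) = 0 ∧
        F ψ = qq a Φ (zs ψ) + S ψ (zs ψ) ∧
        HasDerivAt F (deriv (fun w => S w (zs ψ)) ψ) ψ
  kid : ∀ e r₀ κ₁ c C' : ℝ, 0 < e → 3 * e ≤ r₂ → 0 < r₀ → 0 < κ₁ → 0 < c → 0 < C' →
    ∃ K : ℝ, 0 < K ∧ ∀ (t m : ℕ) (X : ℕ → ℂ → ℂ) (F : ℂ → ℂ) (A : ℕ → ℂ → ℂ),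
    GoodV e e κ₁ c C' t X F → GX e e m X F A →
    ∀ (b : Bool) (a' : ℤ), (b = false → K ^ 2 ≤ ((t + 1 : ℕ) : ℝ) ^ 2 + (a' : ℝ) ^ 2) →
    ∃ F' zs : ℂ → ℂ, C (m + 1) (stpb b a' X) F' ∧
      ∀ φ ∈ U, zs φ ∈ Rc (3 * e) (3 * e) ∧ ‖zs φ‖ ≤ r₀ ∧ (b = true → zs φ = 0) ∧
        (b = false → CPu e e r₀ (zs φ) ∧ Complex.I * a' * zs φ / (2 * π) + Complex.I +
          deriv F (zs φ) + deriv (fun w => S w φ) (zs φ) = 0) ∧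
        F' φ = vt b a' (zs φ) + F (zs φ) + S (zs φ) φ ∧
        HasDerivAt F' (deriv (fun w => S (zs φ) w) φ) φ

/-- the last step at a small vertex, with the expansion -/
def RTX (n : ℕ) (a : ℤ) (z₀ : ℂ) (g : ℝ) (U : Set ℂ)
    (P : ℕ → ℕ → (ℕ → ℂ → ℂ) → (ℂ → ℂ) → Prop) : Prop :=
  ∀ (m : ℕ) (X : ℕ → ℂ → ℂ) (Φ : ℂ → ℂ), P n m X Φ →
    ∃ (z : ℂ) (y : ℕ → ℂ), ‖z - z₀‖ ≤ g ∧ z ∈ U ∧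
      Complex.I * a * z / (2 * π) + Complex.I + deriv Φ z = 0 ∧ y 0 ≠ 0 ∧
      UX (fun N (_ : Unit) => (N : ℂ) ^ (2 * m) * (Real.sqrt N : ℂ) * (-1) ^ (N * (m + 1)) *
        Complex.exp (-(N * qq a Φ z)) * upp (1 / N) fun φ => Ea a N φ * X N φ * kr N φ)
        (fun k _ => y k) Set.univ

/-- a leaf, with the expansion (as `LPG`) -/
def LPX (a : ℤ) (z₀ : ℂ) (g : ℝ) (S : ℂ → ℂ → ℂ) (r₂ c₁ C₁ : ℝ) : Prop :=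
  ∀ a₀ b₀ : ℝ, 0 < b₀ → b₀ ≤ a₀ → 3 * a₀ ≤ r₂ → ∃ κ₁ : ℝ, 0 < κ₁ ∧
    ∃ (F zs : ℂ → ℂ) (A : ℕ → ℂ → ℂ),
      GoodV a₀ b₀ κ₁ c₁ C₁ 1 (stp a fun _ _ => 1) F ∧ GX a₀ b₀ 1 (stp a fun _ _ => 1) F A ∧
      ∀ ψ ∈ Rc (3 * a₀) (3 * b₀), ‖zs ψ - z₀‖ ≤ g ∧
        Complex.I * a * zs ψ / (2 * π) + Complex.I + deriv (fun w => S ψ w) (zs ψ) = 0 ∧
        F ψ = qq a (fun _ => 0) (zs ψ) + S ψ (zs ψ) ∧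
        HasDerivAt F (deriv (fun w => S w (zs ψ)) ψ) ψ

/-- the type `(n, a)` is settled with the point `z₀` and the potential `S`, also as the root, apart
from the geometric meaning of `S` (as `KPR`) -/
def KPRX (n : ℕ) (a : ℤ) (z₀ : ℂ) (S : ℂ → ℂ → ℂ) : Prop := ∀ g : ℝ, 0 < g →
  ∃ (U : Set ℂ) (P : ℕ → ℕ → (ℕ → ℂ → ℂ) → (ℂ → ℂ) → Prop)
    (C : ℕ → (ℕ → ℂ → ℂ) → (ℂ → ℂ) → Prop) (r₂ c₁ C₁ : ℝ),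
    KPX n a z₀ g S U P C r₂ c₁ C₁ ∧ RTX n a z₀ g U P

/-- job AX7: the packages of the small vertices with `a ≤ 0`, `4 ≤ n - a` -/
def S_KRX : Prop := ∀ (n : ℕ) (a : ℤ) (z₀ : ℂ) (x₁ x₂ y₁ : ℝ), 1 ≤ n →
  PathD n a z₀ x₁ x₂ y₁ → KPRX n a z₀ sg

/-- job AX8: mirror images of packages -/
def S_MIRKX : Prop := ∀ (n : ℕ) (a : ℤ) (z₀ : ℂ) (S : ℂ → ℂ → ℂ), KPRX n a z₀ S →
  KPRX n (-a) (-(starRingEnd ℂ) z₀) (mir2 S)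

end Pool.Agent.N561.AX
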