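import Pool.Agent.N561.AX.Stm
import Pool.Agent.N561.V.Krk

/-!
# The packages with expansions of the small vertices with `a ≤ 0`, `4 ≤ n - a`
-/

set_option autoImplicit false
set_option maxHeartbeats 1000000

namespace Pool.Agent.N561.AX

open Finset Filter Topology Metric
open Pool.Agent.W711.HT hiding XX
open Pool.Agent.TH563.UV
open Pool.Agent.TH563.V
open Pool.Agent.W719.AX (UX GX cv)
open scoped Real

/-- the constant one -/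
theorem gxg_one (V : Set ℂ) :
    ∃ A : ℕ → ℂ → ℂ, GXG V 0 (fun _ _ => 1) (fun _ => 0) A := by
  refine ⟨fun k _ => if k = 0 then 1 else 0, ?_, ?_, ?_⟩
  · have e : (fun (N : ℕ) (z : ℂ) => (N : ℂ) ^ (2 * 0) * (-1) ^ (N * 0) *
        Complex.exp (-((N : ℂ) * 0)) * 1) = fun _ _ => 1 := by
      funext N z
      simp
    rw [e]
    exact Pool.Agent.W21.AX.ux_cst (fun _ : ℂ => (1 : ℂ)) _ 1 (fun p _ => by simp)
  · intro k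
    exact differentiableOn_const _
  · intro z _
    simp

/-- products -/
theorem gxg_mul {V : Set ℂ} {m m' : ℕ} {X Y : ℕ → ℂ → ℂ} {F G : ℂ → ℂ} {A B : ℕ → ℂ → ℂ}
    (h1 : GXG V m X F A) (h2 : GXG V m' Y G B) :
    ∃ C : ℕ → ℂ → ℂ, GXG V (m + m') (fun N ψ => X N ψ * Y N ψ) (fun ψ => F ψ + G ψ) C := by
  refine ⟨cv A B, ?_, ?_, ?_⟩
  · have h := Pool.Agent.W303.AX.uxmul _ _ _ _ _ _ h1.ux h2.ux
    have e : (fun (N : ℕ) (z : ℂ) => (N : ℂ) ^ (2 * (m + m')) * (-1) ^ (N * (m + m')) *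
        Complex.exp (-(N * (F z + G z))) * (X N z * Y N z)) = fun (N : ℕ) (z : ℂ) =>
        ((N : ℂ) ^ (2 * m) * (-1) ^ (N * m) * Complex.exp (-(N * F z)) * X N z) *
        ((N : ℂ) ^ (2 * m') * (-1) ^ (N * m') * Complex.exp (-(N * G z)) * Y N z) := by
      funext N z
      have e1 : Complex.exp (-(N * (F z + G z))) =
          Complex.exp (-(N * F z)) * Complex.exp (-(N * G z)) := by
        rw [← Complex.exp_add]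
        congr 1
        ring
      rw [e1, Nat.mul_add, Nat.mul_add, pow_add, pow_add]
      ring
    rw [e]
    exact h
  · intro k
    unfold cv
    exact DifferentiableOn.fun_sum fun i _ => (h1.an i).mul (h2.an _)
  · intro z hz
    have e : cv A B 0 z = A 0 z * B 0 z := by simp [cv]
    rw [e]
    exact mul_ne_zero (h1.nz z hz) (h2.nz z hz)

/-- the package -/
lemma kprx_of (hSM : S_SMALLX) (hKS : S_KIDSX) {n : ℕ} {a : ℤ} {z₀ : ℂ} {x₁ x₂ y₁ : ℝ}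
    (hn : 1 ≤ n) (hP : PathD n a z₀ x₁ x₂ y₁) : KPRX n a z₀ sg := by
  intro g hg
  obtain ⟨U, v, τ₁, ε₁, ε₂, ρ, τ, κ, c, C, ρ₂, Ak, hv, hvg, hvU, hτ₁, hε₁, hε₂, hUG, hE, hRB,
    hAk, ⟨r₂, c₁, C₁, hr₂, hr₂ρ, hr₂τ, hr₂2, hc₁, hC₁, hst⟩, hrt⟩ := hSM n a z₀ x₁ x₂ y₁ hn hP g hg
  obtain ⟨o1, o2, o3, o4, o5⟩ := hP.ord
  have hx : 0 < x₁ := by linarith [hP.zre]
  have hx' : x₁ < π := by linarith [Real.pi_gt_three]
  refine ⟨U, fun j m X Φ => ∃ XL f A, PSm U x₁ τ₁ ε₁ ε₂ j X XL f Φ ∧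
      GXG (ball z₀ (2 * v)) m XL Φ A,
    fun m Y Φ => ∃ YL f A, PSm U x₁ τ₁ ε₁ ε₂ 1 Y YL f Φ ∧ GXG (ball z₀ (2 * v)) m YL Φ A,
    r₂, c₁, C₁, ?_, ?_⟩
  · refine ⟨hr₂, hc₁, hC₁, ?_, ?_, ?_, ?_⟩
    · obtain ⟨A, hA⟩ := gxg_one (ball z₀ (2 * v))
      exact ⟨_, _, A, psm_zero, hA⟩
    · rintro j m m' X Y Φ Φ' ⟨XL, f, A, h1, h2⟩ ⟨YL, f', B, h3, h4⟩
      obtain ⟨B', hB'⟩ := gxg_mul h2 h4
      exact ⟨_, _, B', psm_succ h1 h3, hB'⟩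
    · intro a₀ b₀ hb₀ hba ha₀
      obtain ⟨κ₁, hκ₁, h1⟩ := hst a₀ b₀ hb₀ hba ha₀
      refine ⟨κ₁, hκ₁, ?_⟩
      rintro m X Φ ⟨XL, f, A, h2, h3⟩
      obtain ⟨F, zs, h4, h5, h6⟩ := h1 X XL f Φ h2
      obtain ⟨A', hA'⟩ := h5 m A h3
      refine ⟨F, zs, A', h4, hA', fun ψ hψ => ?_⟩
      obtain ⟨q1, q2⟩ := h6 ψ hψ
      exact ⟨q1.trans hvg, q2⟩
    · intro e r₀ κ₁ c' C' he0 he hr₀ hκ₁ hc' hC'
      have hcp := hE.hc
      have hκp := hE.hκ.1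
      obtain ⟨κz, hκz0, hκz1, hκz2⟩ : ∃ κz : ℝ, 0 < κz ∧ κz ≤ κ ∧ κz < c / 2 * e ^ 2 := by
        refine ⟨min κ (c / 4 * e ^ 2), lt_min hκp (by positivity), min_le_left _ _, ?_⟩
        have h1 : min κ (c / 4 * e ^ 2) ≤ c / 4 * e ^ 2 := min_le_right _ _
        have h2 : 0 < c * e ^ 2 := by positivity
        linarith
      have q1 : e ≤ r₂ := by linarith
      have hE2 := ed_restrict hE he0 (q1.trans hr₂ρ) he0 (q1.trans hr₂τ) le_rfl hκz0 hκz1 hκz2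
      obtain ⟨K, hK0, h1⟩ := hKS U x₁ τ₁ ε₁ ε₂ e e κz c C hx hx' hτ₁ hε₁ hε₂ hUG hE2 hRB ρ₂ z₀ v
        Ak (q1.trans hr₂2) (q1.trans hr₂2) hv hvU hAk r₀ κ₁ c' C' hr₀ hκ₁ hc' hC'
      refine ⟨K, hK0, fun t m X F A hX hA b a' hb => ?_⟩
      obtain ⟨YL, f₀, F', zs, A', h2, h3, h4⟩ := h1 t m X F A hX hA b a' hb
      exact ⟨F', zs, ⟨YL, f₀, A', h2, h3⟩, h4⟩
  · rintro m X Φ ⟨XL, f, A, h1, h2⟩
    obtain ⟨z, z1, z2, z3, -, z5⟩ := hrt X XL f Φ h1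
    obtain ⟨y, y1, y2⟩ := z5 m A h2
    exact ⟨z, y, z1.trans hvg, z2, z3, y1, y2⟩

theorem krx (hSM : S_SMALLX) (hKS : S_KIDSX) : S_KRX :=
  fun _ _ _ _ _ _ hn hP => kprx_of hSM hKS hn hP

end Pool.Agent.N561.AX
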