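import Pool.Agent.N561.AX.FinX
import Pool.Agent.N566.CX.Fin
import Pool.Agent.N566.RX.Tok

/-!
# Small vertices with expansions: all types together, with the clasp
-/

set_option autoImplicit false

namespace Pool.Agent.N561.AX

open Pool.Agent.TH563.V
open Pool.Agent.TH563.UV

/-- the theorem for all small types and the clasp -/
theorem f_finxe : S_FINX TyE RtE := by
  refine mainx f_vf f_vt Pool.Agent.TH921.J1739.vfx Pool.Agent.TH416.J1740.vtx
    Pool.Agent.TH126.J1741.vl_last Pool.Agent.TH886.vlt_last (fun n a h hn => ?_)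
    Pool.Agent.N530.AXG.geox
  rcases h with ⟨h1, h2⟩ | ⟨rfl, rfl⟩ | ⟨rfl, rfl⟩ | ⟨h1, h2⟩
  · exact Pool.Agent.N566.RX.tokx_neg hn h1 h2
  · exact Pool.Agent.N566.RX.tokx_hub
  · exact Pool.Agent.N566.CX.x_tokx (fun h => h ⟨rfl, rfl⟩)
  · exact Pool.Agent.N566.RX.tokx_pos hn h1 h2

end Pool.Agent.N561.AX
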