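import Pool.Agent.N561.V.ArbG
import Pool.Agent.N561.AX.FinE

/-!
# Arborescent links with large and small vertices and clasps: expansions and complex volume
-/

set_option autoImplicit false

namespace Pool.Agent.N561.ArbG

open Finset Filter Topology
open Pool.Agent.TH563.UV.Arb
open Pool.Agent.TH563.CV
open Pool.Agent.W719.AX (EXY)

/-- the expansions, with the complex volume -/
theorem mainX : ∃ K : ℕ, ∀ t : Tree, 1 ≤ t.children → Fine K t →
    (∀ N : ℕ, ContinuousAt (jones t N) (root N)) ∧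
    ∃ V C : ℝ, IsGreatest {W : ℝ | ∃ y : AngleTree, y.tree = t ∧ IsAngle y ∧ vol y = W} V ∧
      (∀ C' : ℝ, HasCS t V C' ↔ ∃ k : ℤ, C' = C + k * Real.pi ^ 2) ∧
      (∀ x : FlatTree, x.angles.tree = t → IsAngle x.angles → vol x.angles = V → x.IsFlat →
        ∃ k : ℤ, x.complexVolume = Complex.I * (V + Complex.I * C) + k * (Real.pi : ℂ) ^ 2) ∧
      (∀ e f : ℤ, ∃ (C : ℝ) (y : ℕ → ℂ), HasCS t V C ∧
        y 0 ≠ 0 ∧ EXY (kashaev e f t) ((V + Complex.I * C) / (2 * Real.pi)) y ∧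
        EXY (kashaev (4 * t.circles - e) f t.mirror) ((V - Complex.I * C) / (2 * Real.pi))
          (fun k => (starRingEnd ℂ) (y k))) ∧
      (∀ s : Tree, t = s.double → HasCS t V 0 ∧ ∃ x : ℕ → ℝ, 0 < x 0 ∧
        EXY (kashaev (4 * s.circles) 1 t) ((V / (2 * Real.pi) : ℝ) : ℂ)
          (fun k => (x k : ℂ))) ∧
      (t.weight = 0 → (t.kids.map Tree.mirror).Perm t.kids → HasCS t V 0 ∧
        ∃ (f : ℤ) (x : ℕ → ℝ), x 0 ≠ 0 ∧
        (∀ N : ℕ, 2 ≤ N → ∃ r : ℝ, kashaev (2 * t.circles) f t N = r) ∧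
        EXY (kashaev (2 * t.circles) f t) ((V / (2 * Real.pi) : ℝ) : ℂ)
          (fun k => (x k : ℂ))) := by
  obtain ⟨K, hK⟩ := Pool.Agent.N561.AX.arbx Pool.Agent.N561.AX.f_finxe
  exact ⟨K, fun t hc ht => hK t hc (fine_neat K t ht)⟩

end Pool.Agent.N561.ArbG
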