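import Pool.Agent.N561.AX.MainX

/-!
# Small vertices with expansions: the statement before the last step
-/

set_option autoImplicit false
set_option maxHeartbeats 2000000

namespace Pool.Agent.N561.AX

open Finset Filter Topology Metric
open Pool.Agent.W711.HT hiding XX
open Pool.Agent.TH563.UV
open Pool.Agent.TH563.V
open Pool.Agent.TH563.Z (shape_nc kd_kappa gx_mono)
open Pool.Agent.W293.HT
open Pool.Agent.W719.AX (UX GX KXD EXY cv)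
open scoped Real

variable {Ty Rt : ℕ → ℤ → Prop}

/-- the product over the children of a vertex near `0`: there are kinds with geometric potentials
such that for every `g` there are scales for which the product has a potential, an expansion and a
critical configuration -/
theorem prex (hVF : S_VF) (hVT : S_VT) (hVFX : S_VFX) (hVTX : S_VTX)
    (hT : ∀ n a, Ty n a → 1 ≤ n → TOKX Rt n a) :
    ∃ (ρ₀ τ₀ κ₀ c₀ : ℝ) (s dl : ℂ → ℂ → ℂ), KD ρ₀ τ₀ κ₀ c₀ s dl ∧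
    ∃ (kf : Bool → ℕ → ℤ → ℕ) (cen : ℕ → ℂ) (S : ℕ → ℂ → ℂ → ℂ) (D : ℕ),
    (∀ n a, kf true n a = 0) ∧ (∀ b n a, kf b n a < D) ∧
    (∀ b n a, kf b n a ≠ 0 → GEOC (cen (kf b n a)) (S (kf b n a))) ∧ ∀ g : ℝ, 0 < g →
    ∃ e κ₁ c₁ C₁ K : ℝ, 0 < e ∧ e ≤ ρ₀ ∧ e ≤ τ₀ ∧ 3 * e + 3 * e ≤ g ∧ 0 < κ₁ ∧ 0 < c₁ ∧ 0 < C₁ ∧
      0 < K ∧ (∀ b n a, Tb.BigV K b n a → kf b n a = 0) ∧
      ∀ t : Tb, OkT2 Ty K true t → ∃ (F : ℂ → ℂ) (A : ℕ → ℂ → ℂ),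
        GoodV e e κ₁ c₁ C₁ t.nc (XX t) F ∧ GX e e t.ne (XX t) F A ∧
        ∀ ψ ∈ Rc (3 * e) (3 * e), ∃ p : PB, p.shape = t ∧ p.rz = ψ ∧ CG kf cen S s ρ₀ τ₀ g 0 p ∧
          F ψ = vg kf S s 0 p ∧ HasDerivAt F (gg kf S s 0 p) ψ := by
  classical
  have hπ := Real.pi_pos
  obtain ⟨ρ₀, τ₀, κ₁, c₀, s, dl, hK1⟩ := Pool.Agent.W719.AR.f_KER
  obtain ⟨κ₀, hκ₀⟩ : ∃ κ₀ : ℝ, κ₀ = min κ₁ (min (c₀ * τ₀ ^ 2) 1) := ⟨_, rfl⟩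
  have hρ₀ := hK1.hρ.1
  have hτ₀ := hK1.hτ.1
  have hc₀ := hK1.hc
  have hκ₀0 : 0 < κ₀ := by
    rw [hκ₀]
    exact lt_min hK1.hκ.1 (lt_min (by positivity) one_pos)
  have hκa : κ₀ ≤ κ₁ := by rw [hκ₀]; exact min_le_left _ _
  have hκb : κ₀ ≤ c₀ * τ₀ ^ 2 := by
    rw [hκ₀]; exact (min_le_right _ _).trans (min_le_left _ _)
  have hκc : κ₀ ≤ 1 := by rw [hκ₀]; exact (min_le_right _ _).trans (min_le_right _ _)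
  have hK := kd_kappa hK1 hκ₀0 hκa
  obtain ⟨C₀, hC₀⟩ := hK.sbd
  -- the large scale
  obtain ⟨ρa, τa, hρa, hτa, Ak, hAk⟩ :=
    Pool.Agent.W719.AX.f_KXC Pool.Agent.W719.AX.f_WIN ρ₀ τ₀ κ₀ c₀ s dl hK
  obtain ⟨ε₀, K₁, hε₀, hε₀1, hK₁0, hreal, hU1, hU2⟩ :=
    f_STEPU ρ₀ τ₀ κ₀ c₀ s dl hK ρa τa Ak hρa hτa hAk
  have hρa0 := hAk.hρ
  have hτa0 := hAk.hτ
  obtain ⟨p0, p1⟩ := f_PRU ρ₀ τ₀ κ₀ c₀ s dl hK ε₀ hε₀
  obtain ⟨p0x, p1x⟩ := (Pool.Agent.W52.AX.prdx Pool.Agent.W303.AX.uxmul) ρa τa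
  obtain ⟨Cs, hEs⟩ := ed_s hK
  -- the types
  have htype : ∀ k : ℕ, ∃ (z₀ : ℂ) (S : ℂ → ℂ → ℂ), Ty (nk2 k) (ak2 k) → 1 ≤ nk2 k →
      GEOC z₀ S ∧ ∀ g : ℝ, 0 < g →
      ∃ (U : Set ℂ) (P : ℕ → ℕ → (ℕ → ℂ → ℂ) → (ℂ → ℂ) → Prop)
        (C : ℕ → (ℕ → ℂ → ℂ) → (ℂ → ℂ) → Prop) (r₂ c₁ C₁ : ℝ), 0 < r₂ ∧ 0 < c₁ ∧ 0 < C₁ ∧
        (KPX (nk2 k) (ak2 k) z₀ g S U P C r₂ c₁ C₁ ∨
          (nk2 k = 1 ∧ LPX (ak2 k) z₀ g S r₂ c₁ C₁)) ∧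
        (Rt (nk2 k) (ak2 k) → KPX (nk2 k) (ak2 k) z₀ g S U P C r₂ c₁ C₁ ∧
          RTX (nk2 k) (ak2 k) z₀ g U P) := by
    intro k
    by_cases hk : Ty (nk2 k) (ak2 k) ∧ 1 ≤ nk2 k
    · obtain ⟨z₀, S, h1, h2⟩ := hT _ _ hk.1 hk.2
      exact ⟨z₀, S, fun _ _ => ⟨h1, h2⟩⟩
    · exact ⟨0, fun _ _ => 0, fun h1 h2 => absurd ⟨h1, h2⟩ hk⟩
  choose cen S hS using htype
  -- the medium vertices
  obtain ⟨D, hD0, hD⟩ := kf2_lt (Ty := Ty) K₁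
  have hadm : ∀ b n a, kf2 Ty K₁ b n a ≠ 0 → Ty (nk2 (kf2 Ty K₁ b n a)) (ak2 (kf2 Ty K₁ b n a)) ∧
      1 ≤ nk2 (kf2 Ty K₁ b n a) := by
    intro b n a hk
    obtain ⟨-, h1, h2, h3, h4⟩ := kf2_spec hk
    rw [h1, h2]
    exact ⟨h3, h4⟩
  -- geometry
  refine ⟨ρ₀, τ₀, κ₀, c₀, s, dl, hK, kf2 Ty K₁, cen, S, D, kf2_true Ty K₁, hD,
    fun b n a hk => (hS _ (hadm b n a hk).1 (hadm b n a hk).2).1, ?_⟩
  intro g hg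
  -- the packages
  have hhub : ∀ k : ℕ, ∃ (U : Set ℂ) (P : ℕ → ℕ → (ℕ → ℂ → ℂ) → (ℂ → ℂ) → Prop)
      (C : ℕ → (ℕ → ℂ → ℂ) → (ℂ → ℂ) → Prop) (r₂ c₁ C₁ : ℝ), 0 < r₂ ∧ 0 < c₁ ∧ 0 < C₁ ∧
      (Ty (nk2 k) (ak2 k) → 1 ≤ nk2 k →
        (KPX (nk2 k) (ak2 k) (cen k) g (S k) U P C r₂ c₁ C₁ ∨
          (nk2 k = 1 ∧ LPX (ak2 k) (cen k) g (S k) r₂ c₁ C₁)) ∧
        (Rt (nk2 k) (ak2 k) → KPX (nk2 k) (ak2 k) (cen k) g (S k) U P C r₂ c₁ C₁ ∧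
          RTX (nk2 k) (ak2 k) (cen k) g U P)) := by
    intro k
    by_cases hk : Ty (nk2 k) (ak2 k) ∧ 1 ≤ nk2 k
    · obtain ⟨U, P, C, r₂, c₁, C₁, h1, h2, h3, h4⟩ := (hS k hk.1 hk.2).2 g hg
      exact ⟨U, P, C, r₂, c₁, C₁, h1, h2, h3, fun _ _ => h4⟩
    · exact ⟨∅, fun _ _ _ _ => True, fun _ _ _ => True, 1, 1, 1, one_pos, one_pos, one_pos,
        fun h1 h2 => absurd ⟨h1, h2⟩ hk⟩
  choose U P C r₂ cs Cs' hr₂ hcs hCs hh using hhub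
  -- the small scale
  obtain ⟨e1, he10, he1⟩ := fin_pos (range D) r₂ (fun k _ => hr₂ k)
  obtain ⟨e, he0, he3, heρ, heτ, heg, hea, heb⟩ : ∃ e : ℝ, 0 < e ∧ 3 * e ≤ e1 ∧ e ≤ ρ₀ ∧
      e ≤ τ₀ ∧ 3 * e + 3 * e ≤ g ∧ e ≤ ρa ∧ e ≤ τa := by
    refine ⟨min (min (e1 / 3) (min (min ρ₀ τ₀) (g / 6))) (min ρa τa), ?_, ?_, ?_, ?_, ?_, ?_, ?_⟩
    · exact lt_min (lt_min (by positivity) (lt_min (lt_min hρ₀ hτ₀) (by positivity)))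
        (lt_min hρa0 hτa0)
    · have h1 : min (min (e1 / 3) (min (min ρ₀ τ₀) (g / 6))) (min ρa τa) ≤ e1 / 3 :=
        (min_le_left _ _).trans (min_le_left _ _)
      linarith
    · exact (min_le_left _ _).trans ((min_le_right _ _).trans
        ((min_le_left _ _).trans (min_le_left _ _)))
    · exact (min_le_left _ _).trans ((min_le_right _ _).trans
        ((min_le_left _ _).trans (min_le_right _ _)))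
    · have : min (min (e1 / 3) (min (min ρ₀ τ₀) (g / 6))) (min ρa τa) ≤ g / 6 :=
        (min_le_left _ _).trans ((min_le_right _ _).trans (min_le_right _ _))
      linarith
    · exact (min_le_right _ _).trans (min_le_left _ _)
    · exact (min_le_right _ _).trans (min_le_right _ _)
  have he14 : e ≤ 1 / 4 := heρ.trans hK.hρ.2
  have he3k : ∀ k, k < D → 3 * e ≤ r₂ k := fun k hk => he3.trans (he1 k (mem_range.2 hk))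
  have hstep : ∀ k : ℕ, ∃ κ₁ : ℝ, 0 < κ₁ ∧ (k < D →
      (KPX (nk2 k) (ak2 k) (cen k) g (S k) (U k) (P k) (C k) (r₂ k) (cs k) (Cs' k) →
      ∀ (m : ℕ) (X : ℕ → ℂ → ℂ) (Φ : ℂ → ℂ), P k (nk2 k - 1) m X Φ →
      ∃ (F zs : ℂ → ℂ) (A : ℕ → ℂ → ℂ),
      GoodV e e κ₁ (cs k) (Cs' k) 1 (stp (ak2 k) X) F ∧ GX e e (m + 1) (stp (ak2 k) X) F A ∧
      ∀ ψ ∈ Rc (3 * e) (3 * e), ‖zs ψ - cen k‖ ≤ g ∧ zs ψ ∈ U k ∧
        Complex.I * (ak2 k) * zs ψ / (2 * π) + Complex.I + deriv Φ (zs ψ) +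
          deriv (fun w => S k ψ w) (zs ψ) = 0 ∧
        F ψ = qq (ak2 k) Φ (zs ψ) + S k ψ (zs ψ) ∧
        HasDerivAt F (deriv (fun w => S k w (zs ψ)) ψ) ψ) ∧
      (LPX (ak2 k) (cen k) g (S k) (r₂ k) (cs k) (Cs' k) →
      ∃ (F zs : ℂ → ℂ) (A : ℕ → ℂ → ℂ),
      GoodV e e κ₁ (cs k) (Cs' k) 1 (stp (ak2 k) fun _ _ => 1) F ∧
      GX e e 1 (stp (ak2 k) fun _ _ => 1) F A ∧
      ∀ ψ ∈ Rc (3 * e) (3 * e), ‖zs ψ - cen k‖ ≤ g ∧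
        Complex.I * (ak2 k) * zs ψ / (2 * π) + Complex.I + deriv (fun w => S k ψ w) (zs ψ) = 0 ∧
        F ψ = qq (ak2 k) (fun _ => 0) (zs ψ) + S k ψ (zs ψ) ∧
        HasDerivAt F (deriv (fun w => S k w (zs ψ)) ψ) ψ)) := by
    intro k
    by_cases hkD : k < D
    · obtain ⟨κa, ha0, ha⟩ : ∃ κ₁ : ℝ, 0 < κ₁ ∧
          (KPX (nk2 k) (ak2 k) (cen k) g (S k) (U k) (P k) (C k) (r₂ k) (cs k) (Cs' k) →
          ∀ (m : ℕ) (X : ℕ → ℂ → ℂ) (Φ : ℂ → ℂ), P k (nk2 k - 1) m X Φ →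
          ∃ (F zs : ℂ → ℂ) (A : ℕ → ℂ → ℂ),
          GoodV e e κ₁ (cs k) (Cs' k) 1 (stp (ak2 k) X) F ∧
          GX e e (m + 1) (stp (ak2 k) X) F A ∧
          ∀ ψ ∈ Rc (3 * e) (3 * e), ‖zs ψ - cen k‖ ≤ g ∧ zs ψ ∈ U k ∧
            Complex.I * (ak2 k) * zs ψ / (2 * π) + Complex.I + deriv Φ (zs ψ) +
              deriv (fun w => S k ψ w) (zs ψ) = 0 ∧
            F ψ = qq (ak2 k) Φ (zs ψ) + S k ψ (zs ψ) ∧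
            HasDerivAt F (deriv (fun w => S k w (zs ψ)) ψ) ψ) := by
        by_cases h : KPX (nk2 k) (ak2 k) (cen k) g (S k) (U k) (P k) (C k) (r₂ k) (cs k) (Cs' k)
        · obtain ⟨κ₁, h1, h2⟩ := h.step e e he0 le_rfl (he3k k hkD)
          exact ⟨κ₁, h1, fun _ => h2⟩
        · exact ⟨1, one_pos, fun h' => absurd h' h⟩
      obtain ⟨κb, hb0, hb⟩ : ∃ κ₁ : ℝ, 0 < κ₁ ∧
          (LPX (ak2 k) (cen k) g (S k) (r₂ k) (cs k) (Cs' k) →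
          ∃ (F zs : ℂ → ℂ) (A : ℕ → ℂ → ℂ),
          GoodV e e κ₁ (cs k) (Cs' k) 1 (stp (ak2 k) fun _ _ => 1) F ∧
          GX e e 1 (stp (ak2 k) fun _ _ => 1) F A ∧
          ∀ ψ ∈ Rc (3 * e) (3 * e), ‖zs ψ - cen k‖ ≤ g ∧
            Complex.I * (ak2 k) * zs ψ / (2 * π) + Complex.I +
              deriv (fun w => S k ψ w) (zs ψ) = 0 ∧
            F ψ = qq (ak2 k) (fun _ => 0) (zs ψ) + S k ψ (zs ψ) ∧
            HasDerivAt F (deriv (fun w => S k w (zs ψ)) ψ) ψ) := by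
        by_cases h : LPX (ak2 k) (cen k) g (S k) (r₂ k) (cs k) (Cs' k)
        · obtain ⟨κ₁, h1, h2⟩ := h e e he0 le_rfl (he3k k hkD)
          exact ⟨κ₁, h1, fun _ => h2⟩
        · exact ⟨1, one_pos, fun h' => absurd h' h⟩
      refine ⟨min κa κb, lt_min ha0 hb0, fun _ => ⟨fun h m X Φ hX => ?_, fun h => ?_⟩⟩
      · obtain ⟨F, zs, A, h1, h2⟩ := ha h m X Φ hX
        exact ⟨F, zs, A, gv_mono h1 (min_le_left _ _) le_rfl le_rfl, h2⟩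
      · obtain ⟨F, zs, A, h1, h2⟩ := hb h
        exact ⟨F, zs, A, gv_mono h1 (min_le_right _ _) le_rfl le_rfl, h2⟩
    · exact ⟨1, one_pos, fun h1 => absurd h1 hkD⟩
  choose κk₁ hκk hst using hstep
  obtain ⟨km, hkm0, hkm⟩ := fin_pos (range D) κk₁ (fun k _ => hκk k)
  obtain ⟨cm, hcm0, hcm⟩ := fin_pos (range D) cs (fun k _ => hcs k)
  obtain ⟨CM, hCM0, hCM⟩ := fin_bdd (range D) Cs'
  obtain ⟨c₁, hc₁0, hc₁m, hc₁c⟩ : ∃ c₁ : ℝ, 0 < c₁ ∧ c₁ ≤ cm ∧ c₁ ≤ c₀ / 2 :=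
    ⟨min cm (c₀ / 2), lt_min hcm0 (by positivity), min_le_left _ _, min_le_right _ _⟩
  obtain ⟨κs, hκs0, hκsm, hκs₀, hκse⟩ : ∃ κs : ℝ, 0 < κs ∧ κs ≤ km ∧ κs ≤ κ₀ ∧
      κs / 2 < c₀ / 2 / 2 * e ^ 2 := by
    refine ⟨min km (min κ₀ (c₀ / 4 * e ^ 2)), ?_, min_le_left _ _,
      (min_le_right _ _).trans (min_le_left _ _), ?_⟩
    · exact lt_min hkm0 (lt_min hκ₀0 (by positivity))
    · have h1 : min km (min κ₀ (c₀ / 4 * e ^ 2)) ≤ c₀ / 4 * e ^ 2 :=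
        (min_le_right _ _).trans (min_le_right _ _)
      have h2 : 0 < c₀ * e ^ 2 := by positivity
      linarith
  obtain ⟨C₁, hC₁0, hC₁M, hC₁c⟩ : ∃ C₁ : ℝ, 0 < C₁ ∧ CM ≤ C₁ ∧ 8 * (1 + 3 * C₀) / τ₀ ^ 2 ≤ C₁ :=
    ⟨max CM (8 * (1 + 3 * C₀) / τ₀ ^ 2), lt_max_of_lt_left hCM0, le_max_left _ _, le_max_right _ _⟩
  obtain ⟨r₀, hr₀0, hr₀a, hr₀g, hr₀e⟩ : ∃ r₀ : ℝ, 0 < r₀ ∧ r₀ ≤ 1 / 10 ∧ r₀ ≤ g ∧
      r₀ < min e e / 4 := by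
    rw [min_self]
    refine ⟨min (1 / 10) (min g (e / 8)), lt_min (by norm_num) (lt_min hg (by positivity)),
      min_le_left _ _, (min_le_right _ _).trans (min_le_left _ _), ?_⟩
    have : min (1 / 10) (min g (e / 8)) ≤ e / 8 := (min_le_right _ _).trans (min_le_right _ _)
    linarith
  -- the large vertices
  obtain ⟨κe, hκe0, hκe1, hκe2⟩ : ∃ κe : ℝ, 0 < κe ∧ κe ≤ κ₀ ∧ κe < c₀ / 2 * e ^ 2 := by
    refine ⟨min κ₀ (c₀ / 4 * e ^ 2), lt_min hκ₀0 (by positivity), min_le_left _ _, ?_⟩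
    have h1 : min κ₀ (c₀ / 4 * e ^ 2) ≤ c₀ / 4 * e ^ 2 := min_le_right _ _
    have h2 : 0 < c₀ * e ^ 2 := by positivity
    linarith
  have hEs2 := ed_restrict hEs he0 heρ he0 heτ le_rfl hκe0 hκe1 hκe2
  obtain ⟨KA, hKA0, hkidA⟩ := kida hVF hVT hVFX hVTX hK hε₀ hEs2 hr₀0 hκs0 hc₁0 hC₁0 hAk he0 he0
    le_rfl le_rfl hea heb hρa hτa hr₀e heρ heτ
  have hkidk : ∀ k : ℕ, ∃ K : ℝ, 0 < K ∧ (k < D →
      KPX (nk2 k) (ak2 k) (cen k) g (S k) (U k) (P k) (C k) (r₂ k) (cs k) (Cs' k) →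
      ∀ (t m : ℕ) (X : ℕ → ℂ → ℂ) (F : ℂ → ℂ) (A : ℕ → ℂ → ℂ), GoodV e e κs c₁ C₁ t X F →
      GX e e m X F A →
      ∀ (b : Bool) (a' : ℤ), (b = false → K ^ 2 ≤ ((t + 1 : ℕ) : ℝ) ^ 2 + (a' : ℝ) ^ 2) →
      ∃ F' zs : ℂ → ℂ, C k (m + 1) (stpb b a' X) F' ∧
        ∀ φ ∈ U k, zs φ ∈ Rc (3 * e) (3 * e) ∧ ‖zs φ‖ ≤ r₀ ∧ (b = true → zs φ = 0) ∧
          (b = false → CPu e e r₀ (zs φ) ∧ Complex.I * a' * zs φ / (2 * π) + Complex.I +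
            deriv F (zs φ) + deriv (fun w => S k w φ) (zs φ) = 0) ∧
          F' φ = vt b a' (zs φ) + F (zs φ) + S k (zs φ) φ ∧
          HasDerivAt F' (deriv (fun w => S k (zs φ) w) φ) φ) := by
    intro k
    by_cases hk : k < D ∧
        KPX (nk2 k) (ak2 k) (cen k) g (S k) (U k) (P k) (C k) (r₂ k) (cs k) (Cs' k)
    · obtain ⟨K, hK0, h1⟩ := hk.2.kid e r₀ κs c₁ C₁ he0 (he3k k hk.1) hr₀0 hκs0 hc₁0 hC₁0
      exact ⟨K, hK0, fun _ _ => h1⟩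
    · exact ⟨1, one_pos, fun h1 h2 => absurd ⟨h1, h2⟩ hk⟩
  choose Kk hKk0 hkidk using hkidk
  obtain ⟨KZ, hKZ0, hKZ⟩ := fin_bdd (range D) Kk
  obtain ⟨p0y, p1y⟩ := (Pool.Agent.W52.AX.prdx Pool.Agent.W303.AX.uxmul) e e
  obtain ⟨K, hKK₁, hKA, hKZ'⟩ : ∃ K : ℝ, K₁ ≤ K ∧ KA ≤ K ∧ KZ ≤ K :=
    ⟨max (max K₁ KA) KZ, (le_max_left _ _).trans (le_max_left _ _),
      (le_max_right _ _).trans (le_max_left _ _), le_max_right _ _⟩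
  have hK0 : 0 < K := hK₁0.trans_le hKK₁
  -- the induction
  obtain ⟨q, hq⟩ : ∃ q : CX, q = ⟨ρ₀, τ₀, κ₀, ε₀, ρa, τa, e, κs, c₁, C₁, g⟩ := ⟨_, rfl⟩
  have hind := fun t => main_ind2 (Ty := Ty) (kf := kf2 Ty K₁) (K := K)
    (Pv := XV (kf2 Ty K₁) cen S s q) (Pu := XU (kf2 Ty K₁) cen S s q)
    (Hv := ZV (kf2 Ty K₁) cen S s q) (Hu := ZU (kf2 Ty K₁) cen S s q)
    (Pz := fun k t => KPX (nk2 k) (ak2 k) (cen k) g (S k) (U k) (P k) (C k) (r₂ k) (cs k) (Cs' k) →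
      ∃ Φ : ℂ → ℂ, P k t.nc t.ne (XX t) Φ ∧
        ∀ φ ∈ U k, CfP' (kf2 Ty K₁) cen S s ρ₀ τ₀ g k t Φ φ)
    (Hz := fun k c => KPX (nk2 k) (ak2 k) (cen k) g (S k) (U k) (P k) (C k) (r₂ k) (cs k) (Cs' k) →
      ∃ F' : ℂ → ℂ, C k (c.ne + 1) (stpb c.bl c.wt (XX c)) F' ∧
        ∀ φ ∈ U k, CfC' (kf2 Ty K₁) cen S s ρ₀ τ₀ g k c F' φ)
    (by rw [hq]; exact fun b a => xv_zero he0 p0y b a)
    (by rw [hq]; exact fun b a => xu_zero p0 p0x b a)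
    (fun k b a h => ⟨fun _ => 0, h.zero, fun φ _ => cfp_zero' k b a φ⟩)
    (by rw [hq]; exact fun t c h1 h2 => xv_succ he0 p1y h1 h2)
    (by rw [hq]; exact fun t c h1 h2 => xu_succ p1 p1x h1 h2)
    (by
      intro k t c h1 h2 h
      obtain ⟨Φ, a1, a2⟩ := h1 h
      obtain ⟨F', b1, b2⟩ := h2 h
      refine ⟨fun φ => Φ φ + F' φ, ?_, fun φ hφ => cfp_succ' (a2 φ hφ) (b2 φ hφ)⟩
      rw [ne_br]
      exact h.succ _ _ _ _ _ _ _ a1 b1)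
    (by
      rw [hq]
      exact fun c h1 => zv_of_zu hK (by linarith) (by linarith) hC₀ he0 heρ heτ hκs₀ hκse
        hc₁c hC₁c hea heb h1)
    (by
      rw [hq]
      intro c h1 h2
      refine zu_big (K := KA) hr₀a heρ heτ hkidA (kf2_big hK₁0.le hKK₁ h1)
        (fun hf => (pow_le_pow_left₀ hKA0.le hKA 2).trans (h1 hf)) h2)
    (by
      rw [hq]
      intro c h1 h1' h2 h3
      exact zu_med (K := K₁) hρ₀ hτ₀ hU1 h1 h2 (kf2_med h1 h1' (by omega) h2) h3)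
    (by
      rw [hq]
      rintro k ⟨b, n, a, rfl⟩ hk0 c h1 h2 hk
      have hkD := hD b n a
      have hKk : Kk (kf2 Ty K₁ b n a) ≤ K := (hKZ _ (mem_range.2 hkD)).trans hKZ'
      obtain ⟨F, A, a1, a2, a3⟩ := h2
      obtain ⟨F', zs, b1, b2⟩ := hkidk _ hkD hk c.nc c.ne (XX c) F A a1 a2 c.bl c.wt
        (fun hf => (pow_le_pow_left₀ (hKk0 _).le hKk 2).trans (h1 hf))
      refine ⟨F', b1, fun ψ hψ => ?_⟩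
      obtain ⟨c1, c2, c3, c4, c5, c6⟩ := b2 ψ hψ
      exact cfc_k0' hk0 (kf2_big hK₁0.le hKK₁ h1) (a3 _ c1) (c2.trans hr₀g) c3
        (fun hf => ⟨cpu_mono (c4 hf).1 heρ heτ hr₀a, (c4 hf).2⟩) c5 c6)
    (by
      intro c h1 h1' h2 h3
      obtain ⟨s1, s2, s3, s4, s5⟩ := kf2_spec h2
      have hkD := hD c.bl (c.nc + 1) c.wt
      obtain ⟨hpk, -⟩ := hh _ (hadm _ _ _ h2).1 (hadm _ _ _ h2).2
      have hmono : ∀ {X : ℕ → ℂ → ℂ} {F : ℂ → ℂ},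
          GoodV e e (κk₁ (kf2 Ty K₁ c.bl (c.nc + 1) c.wt)) (cs (kf2 Ty K₁ c.bl (c.nc + 1) c.wt))
            (Cs' (kf2 Ty K₁ c.bl (c.nc + 1) c.wt)) 1 X F → GoodV e e κs c₁ C₁ 1 X F :=
        fun h => gv_mono h (hκsm.trans (hkm _ (mem_range.2 hkD)))
          (hc₁m.trans (hcm _ (mem_range.2 hkD))) ((hCM _ (mem_range.2 hkD)).trans hC₁M)
      rcases hpk with hpk | ⟨hn1, hpk⟩
      · obtain ⟨Φ, a1, a2⟩ := h3 hpk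
        have e1 : nk2 (kf2 Ty K₁ c.bl (c.nc + 1) c.wt) - 1 = c.nc := by rw [s2]; omega
        obtain ⟨F, zs, A, b1, b1', b2⟩ := (hst _ hkD).1 hpk c.ne (XX c) Φ (by rw [e1]; exact a1)
        rw [hq]
        refine zv_small (zs := zs) (Φ := Φ) (A := A)
          (q := ⟨ρ₀, τ₀, κ₀, ε₀, ρa, τa, e, κs, c₁, C₁, g⟩)
          h2 heg s1 rfl s3 (hmono b1) b1' fun ψ hψ => ?_
        obtain ⟨c1, c2, c3, c4, c5⟩ := b2 ψ hψ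
        exact ⟨c1, a2 _ c2, c3, c4, c5⟩
      · have hc1 : c.nc + 1 = 1 := by rw [← s2]; exact hn1
        obtain ⟨F, zs, A, b1, b1', b2⟩ := (hst _ hkD).2 hpk
        rw [hq]
        refine zv_small (zs := zs) (Φ := fun _ => 0) (A := A)
          (q := ⟨ρ₀, τ₀, κ₀, ε₀, ρa, τa, e, κs, c₁, C₁, g⟩) h2 heg s1 rfl s3
          (by rw [leaf_of hc1]; exact hmono b1)
          (by rw [leaf_of hc1, leaf_ne hc1]; exact b1') fun ψ hψ => ?_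
        obtain ⟨c1, c3, c4, c5⟩ := b2 ψ hψ
        refine ⟨c1, leaf_cf hc1 _ _, ?_, c4, c5⟩
        rw [deriv_const, add_zero]
        exact c3) t
  refine ⟨e, κs, c₁, C₁, K, he0, heρ, heτ, heg, hκs0, hc₁0, hC₁0, hK0,
    fun b n a h => kf2_big hK₁0.le hKK₁ h, ?_⟩
  intro t hok
  have h1 := (hind t).1 hok
  rw [hq] at h1
  exact h1

end Pool.Agent.N561.AX
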