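import Pool.Agent.N561.AX.ArbX
import Pool.Agent.N561.AX.Krx
import Pool.Agent.N561.AX.PreX
import Pool.Agent.N561.V.FinE
import Pool.Agent.N457.AX.Cont
import Pool.Agent.N861.AX.Kxs
import Pool.Agent.N499.AX.OutX
import Pool.Agent.N499.AX.SmX
import Pool.Agent.N46.AX.Mirkx
import Pool.Agent.N614.AX.Hub
import Pool.Agent.N803.AXG.Mirgx
import Pool.Agent.N530.AXG.GeoX
import Pool.Agent.TH126.J1741
import Pool.Agent.N644.AX.Kxb
import Pool.Agent.N130.AX.Kidsx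
import Pool.Agent.N282.AX.Edge

/-!
# Small vertices with expansions: the types together
-/

set_option autoImplicit false

namespace Pool.Agent.N561.AX

open Pool.Agent.TH563.V
open Pool.Agent.TH563.UV

/-- The types of the small vertices: weight `a ≤ 0` and `n + |a| ≥ 4`, or weight `0` and `n = 3`, or
weight `a > 0` and `n + a ≥ 5`. -/
def TyP (n : ℕ) (a : ℤ) : Prop :=
  (a ≤ 0 ∧ 4 ≤ (n : ℤ) - a) ∨ (n = 3 ∧ a = 0) ∨ (0 < a ∧ 5 ≤ (n : ℤ) + a)

theorem f_smallx (hB : S_KXB) : S_SMALLX :=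
  Pool.Agent.N499.AX.smallx f_edk f_rb Pool.Agent.N878.F.out Pool.Agent.N878.F.outb f_sf f_sgp
    (Pool.Agent.N861.AX.kxs Pool.Agent.N457.AX.cont f_near f_sgp hB) Pool.Agent.N499.AX.outx

/-- the parts together -/
theorem fin_x (hB : S_KXB) (hKS : S_KIDSX) (hG : S_GPS) (hH : S_GEOH) :
    S_FINX TyP fun _ _ => True := by
  refine mainx f_vf f_vt Pool.Agent.TH921.J1739.vfx Pool.Agent.TH416.J1740.vtx
    Pool.Agent.TH126.J1741.vl_last Pool.Agent.TH886.vlt_last (fun n a h hn => ?_)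
    Pool.Agent.N530.AXG.geox
  have hSM := f_smallx hB
  rcases h with ⟨h1, h2⟩ | ⟨rfl, rfl⟩ | ⟨h1, h2⟩
  · obtain ⟨z, x₁, x₂, y₁, hP⟩ := f_path n a hn h1 h2
    exact tokx_of_kprx (hG z hP.zG hP.zre) (kprx_of hSM hKS hn hP)
  · obtain ⟨S, r, c, C, dl, h1, h2, h3⟩ := Pool.Agent.N614.AX.krx_hub (k := 3) le_rfl
    exact tokx_of_kprx (hH _ _ _ _ _ _ h1 h2) h3
  · obtain ⟨z, x₁, x₂, y₁, hP⟩ := f_path n (-a) hn (by omega) (by omega)
    refine tokx_of_kprx (z₀ := -(starRingEnd ℂ) z) (S := mir2 sg) ?_ ?_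
    · refine Pool.Agent.N803.AXG.mirgx f_sgp hG z hP.zG hP.zre
        (Pool.Agent.N868.VS.mirz f_sf n (-a) z hn (by omega) (by omega) hP.zG hP.zre ?_)
      exact hP.crit
    · have h3 := Pool.Agent.N46.AX.mirkx n (-a) z sg (kprx_of hSM hKS hn hP)
      rw [neg_neg] at h3
      exact h3

/-- the theorem for all small types without the clasp -/
theorem f_finx : S_FINX TyP fun _ _ => True :=
  fin_x (Pool.Agent.N644.AX.kxb f_sgp f_sf f_near)
    (Pool.Agent.N130.AX.kidsx f_vf f_vt Pool.Agent.TH921.J1739.vfx Pool.Agent.TH416.J1740.vtx f_rb)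
    (Pool.Agent.N282.AX.gps f_edge f_sgp f_sf) Pool.Agent.N282.AX.geoh

end Pool.Agent.N561.AX
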