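import Pool.Agent.N561.AX.ArbP
import Pool.Agent.N561.AX.FinX

/-!
# Arborescent links with large and small vertices: expansions and complex volume
-/

set_option autoImplicit false

namespace Pool.Agent.N561.ArbP

open Finset Filter Topology
open Pool.Agent.TH563.UV.Arb
open Pool.Agent.TH563.CV
open Pool.Agent.W719.AX (EXY)
open Pool.Agent.N561.AX (TyP)

lemma tyP_of_small {n : ℕ} {a : ℤ} (h : Small n a) : TyP n a := by
  rcases h with ⟨h1, h2⟩ | ⟨h1, h2⟩ | h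
  · rw [abs_of_nonpos h1] at h2
    exact Or.inl ⟨h1, by linarith⟩
  · exact Or.inr (Or.inr ⟨h1, h2⟩)
  · exact Or.inr (Or.inl h)

lemma fineBelow_neat (K : ℕ) (t : Tree) :
    ∀ g : Prop, FineBelow K g t → NeatBelow TyP K g t := by
  induction t with
  | single b a => intro g _; trivial
  | join t c iht ihc =>
    rintro g ⟨h1, h2, h3⟩
    refine ⟨iht g h1, ihc _ h2, ?_⟩
    rcases h3 with h3 | ⟨h3, h4, h5⟩
    · exact Or.inl h3
    · exact Or.inr ⟨h3, h4, tyP_of_small h5⟩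

lemma fine_neat (K : ℕ) (t : Tree) (ht : Fine K t) : Neat TyP (fun _ _ => True) K t := by
  obtain ⟨h1, h2⟩ := ht
  refine ⟨?_, fineBelow_neat K t _ h2⟩
  rcases h1 with h1 | ⟨h1, h3⟩
  · exact Or.inl h1
  · exact Or.inr ⟨h1, tyP_of_small h3, trivial⟩

/-- the expansions, with the complex volume -/
theorem main : ∃ K : ℕ, ∀ t : Tree, 1 ≤ t.children → Fine K t →
    (∀ N : ℕ, ContinuousAt (jones t N) (root N)) ∧
    ∃ V C : ℝ, IsGreatest {W : ℝ | ∃ y : AngleTree, y.tree = t ∧ IsAngle y ∧ vol y = W} V ∧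
      (∀ C' : ℝ, HasCS t V C' ↔ ∃ k : ℤ, C' = C + k * Real.pi ^ 2) ∧
      (∀ x : FlatTree, x.angles.tree = t → IsAngle x.angles → vol x.angles = V → x.IsFlat →
        ∃ k : ℤ, x.complexVolume = Complex.I * (V + Complex.I * C) + k * (Real.pi : ℂ) ^ 2) ∧
      (∀ e f : ℤ, ∃ (C : ℝ) (y : ℕ → ℂ), HasCS t V C ∧
        y 0 ≠ 0 ∧ EXY (kashaev e f t) ((V + Complex.I * C) / (2 * Real.pi)) y ∧
        EXY (kashaev (4 * t.circles - e) f t.mirror) ((V - Complex.I * C) / (2 * Real.pi))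
          (fun k => (starRingEnd ℂ) (y k))) ∧
      (∀ s : Tree, t = s.double → HasCS t V 0 ∧ ∃ x : ℕ → ℝ, 0 < x 0 ∧
        EXY (kashaev (4 * s.circles) 1 t) ((V / (2 * Real.pi) : ℝ) : ℂ)
          (fun k => (x k : ℂ))) ∧
      (t.weight = 0 → (t.kids.map Tree.mirror).Perm t.kids → HasCS t V 0 ∧
        ∃ (f : ℤ) (x : ℕ → ℝ), x 0 ≠ 0 ∧
        (∀ N : ℕ, 2 ≤ N → ∃ r : ℝ, kashaev (2 * t.circles) f t N = r) ∧
        EXY (kashaev (2 * t.circles) f t) ((V / (2 * Real.pi) : ℝ) : ℂ)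
          (fun k => (x k : ℂ))) := by
  obtain ⟨K, hK⟩ := Pool.Agent.N561.AX.arbx Pool.Agent.N561.AX.f_finx
  exact ⟨K, fun t hc ht => hK t hc (fine_neat K t ht)⟩

end Pool.Agent.N561.ArbP
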