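import Pool.Agent.N561.AX.MainX
import Pool.Agent.N561.V.Arb
import Pool.Agent.TH563.CU.ValX

/-!
# Arborescent links with large and small vertices: expansions and complex volume
-/

set_option autoImplicit false

namespace Pool.Agent.N561.AX

open Finset Filter Topology
open Pool.Agent.TH563.UV.Arb
open Pool.Agent.TH563.Z.Arb
open Pool.Agent.TH563.V.Arb
open Pool.Agent.TH563.CV
open Pool.Agent.TH563.CU (Unq)
open Pool.Agent.TH563.UV (Tb JT ngb kb)
open Pool.Agent.TH219.J139 (ne_ngb nb_ngb ws_ngb)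
open Pool.Agent.W711.HT (vN)
open Pool.Agent.W719.AX (EXY)
open scoped Real

section

/-- complex conjugates of expansions -/
lemma exy_conj {a : ℕ → ℂ} {v : ℂ} {y : ℕ → ℂ} (h : EXY a v y) :
    EXY (fun N => (starRingEnd ℂ) (a N)) ((starRingEnd ℂ) v) (fun k => (starRingEnd ℂ) (y k)) := by
  intro K
  obtain ⟨C, hC⟩ := h K
  refine ⟨C, hC.mono fun N hN => ?_⟩
  have e : (starRingEnd ℂ) (a N) / (((Real.sqrt N) ^ 3 : ℝ) *
      Complex.exp (N * (starRingEnd ℂ) v)) - ∑ k ∈ range K, (starRingEnd ℂ) (y k) / (N : ℂ) ^ k =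
      (starRingEnd ℂ) (a N / (((Real.sqrt N) ^ 3 : ℝ) * Complex.exp (N * v)) -
        ∑ k ∈ range K, y k / (N : ℂ) ^ k) := by
    rw [map_sub, map_div₀, map_mul, Complex.conj_ofReal, map_sum]
    congr 1
    · congr 2
      rw [← Complex.exp_conj, map_mul, Complex.conj_natCast]
    · refine Finset.sum_congr rfl fun k _ => ?_
      rw [map_div₀, map_pow, Complex.conj_natCast]
  rw [e, Complex.norm_conj]
  exact hN

lemma exy_congr {a b : ℕ → ℂ} {v : ℂ} {y : ℕ → ℂ} (h : EXY a v y)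
    (hab : ∀ᶠ N : ℕ in atTop, b N = a N) : EXY b v y := by
  intro K
  obtain ⟨C, hC⟩ := h K
  refine ⟨C, ?_⟩
  filter_upwards [hC, hab] with N hN hN'
  rw [hN']
  exact hN

lemma conj_zpow_unit {z : ℂ} (hz : z * (starRingEnd ℂ) z = 1) (n : ℤ) :
    (starRingEnd ℂ) (z ^ n) = z ^ (-n) := by
  have h1 : (starRingEnd ℂ) z = z⁻¹ := eq_inv_of_mul_eq_one_right hz
  rw [map_zpow₀, h1, inv_zpow, zpow_neg]

/-- the Kashaev invariants of the mirror image -/
theorem kashaev_mirror (e f : ℤ) (t : Tree) {N : ℕ} (hN : 2 ≤ N) :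
    kashaev e f t.mirror N = (starRingEnd ℂ) (kashaev (4 * t.circles - e) f t N) := by
  have hN0 : (N : ℂ) ≠ 0 := by exact_mod_cast (by omega : N ≠ 0)
  have h1 : jones t N (root N) = _ :=
    (jones_to t N ▸ (Pool.Agent.TH639.J28.rtb (toTb t) N hN).2 :
      jones t N (vN N) = (-1) ^ ((N - 1) * (toTb t).ne) *
        (Complex.I * N ^ 2 / (2 * π)) ^ ((toTb t).ne + 1) *
        Pool.Agent.W719.AR.kp N ^ (toTb t).ws * kb N ^ (toTb t).nb * JT (toTb t) N)
  have h1' : jones t.mirror N (root N) = _ :=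
    (jones_to t.mirror N ▸ (Pool.Agent.TH639.J28.rtb (toTb t.mirror) N hN).2 :
      jones t.mirror N (vN N) = (-1) ^ ((N - 1) * (toTb t.mirror).ne) *
        (Complex.I * N ^ 2 / (2 * π)) ^ ((toTb t.mirror).ne + 1) *
        Pool.Agent.W719.AR.kp N ^ (toTb t.mirror).ws * kb N ^ (toTb t.mirror).nb *
          JT (toTb t.mirror) N)
  rw [mirror_toTb, ne_ngb, nb_ngb, ws_ngb] at h1'
  have hk : Pool.Agent.W719.AR.kp N * (starRingEnd ℂ) (Pool.Agent.W719.AR.kp N) = 1 := by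
    rw [Complex.mul_conj, Complex.normSq_eq_norm_sq, Pool.Agent.W803.AR.norm_kp]
    norm_num
  have hunit : ∀ x : ℝ, Complex.exp (x * Complex.I) *
      (starRingEnd ℂ) (Complex.exp (x * Complex.I)) = 1 := by
    intro x
    rw [Complex.mul_conj, Complex.normSq_eq_norm_sq, Complex.norm_exp_ofReal_mul_I]
    norm_num
  have hr : root N * (starRingEnd ℂ) (root N) = 1 := by
    have : root N = Complex.exp ((π / N : ℝ) * Complex.I) := by
      unfold root
      congr 1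
      push_cast
      ring
    rw [this]
    exact hunit _
  have hkb : kb N * (starRingEnd ℂ) (kb N) = 1 := by
    have : kb N = Complex.exp ((2 * π / N : ℝ) * Complex.I) := by
      unfold kb
      congr 1
      push_cast
      ring
    rw [this]
    exact hunit _
  have h2 := kb_root N (by omega) t.circles
  have hkb0 : kb N ≠ 0 := left_ne_zero_of_mul (by rw [hkb]; exact one_ne_zero)
  have hr0 : root N ≠ 0 := left_ne_zero_of_mul (by rw [hr]; exact one_ne_zero)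
  have hconjJ := conj_JT (toTb t) N
  obtain ⟨n, hn⟩ : ∃ n : ℕ, n = (toTb t).ne := ⟨_, rfl⟩
  rw [← hn] at h1 h1' hconjJ
  rw [circles_to] at h1 h1'
  have c1 : (starRingEnd ℂ) (jones t N (root N)) = (-1) ^ ((N - 1) * n) *
      (Complex.I * N ^ 2 / (2 * π)) ^ (n + 1) * Pool.Agent.W719.AR.kp N ^ (-(toTb t).ws) *
        kb N ^ (-(t.circles : ℤ)) * JT (ngb (toTb t)) N := by
    rw [h1]
    simp only [map_mul, map_pow, map_neg, map_one, map_div₀, Complex.conj_I, Complex.conj_natCast,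
      Complex.conj_ofReal, map_ofNat]
    rw [conj_zpow_unit hk, hconjJ]
    have e1 : (starRingEnd ℂ) (kb N) ^ t.circles = kb N ^ (-(t.circles : ℤ)) := by
      rw [← conj_zpow_unit hkb, map_zpow₀, zpow_natCast]
    rw [e1]
    have e2 : (-Complex.I * (N : ℂ) ^ 2 / (2 * π)) ^ (n + 1) =
        (-1) ^ (n + 1) * (Complex.I * (N : ℂ) ^ 2 / (2 * π)) ^ (n + 1) := by
      rw [← mul_pow]
      congr 1
      ring
    rw [e2]
    have e3 : ((-1 : ℂ)) ^ (n + 1) * (-1) ^ (n + 1) = 1 := by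
      rw [← mul_pow]
      norm_num
    linear_combination ((-1 : ℂ) ^ ((N - 1) * n) * (Complex.I * (N : ℂ) ^ 2 / (2 * π)) ^ (n + 1) *
      Pool.Agent.W719.AR.kp N ^ (-(toTb t).ws) * kb N ^ (-(t.circles : ℤ)) *
      JT (ngb (toTb t)) N) * e3
  have c2 : jones t.mirror N (root N) = kb N ^ (2 * t.circles) *
      (starRingEnd ℂ) (jones t N (root N)) := by
    rw [c1, h1']
    have e1 : kb N ^ t.circles = kb N ^ (2 * t.circles) * kb N ^ (-(t.circles : ℤ)) := by
      rw [← zpow_natCast, ← zpow_natCast, ← zpow_add₀ hkb0]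
      congr 1
      push_cast
      ring
    rw [e1]
    ring
  unfold kashaev
  rw [c2]
  simp only [map_mul]
  rw [conj_zpow_unit hr]
  have e1 : (starRingEnd ℂ) ((-1 : ℂ) ^ (f * ((N : ℤ) - 1))) = (-1) ^ (f * ((N : ℤ) - 1)) := by
    rw [map_zpow₀, map_neg, map_one]
  rw [e1]
  have e2 : root N ^ (-((4 * (t.circles : ℤ) - e) * ((N : ℤ) ^ 2 - 1))) =
      root N ^ (e * ((N : ℤ) ^ 2 - 1)) * kb N ^ (2 * t.circles) := by
    have e3 : root N ^ (e * ((N : ℤ) ^ 2 - 1)) =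
        root N ^ (-((4 * (t.circles : ℤ) - e) * ((N : ℤ) ^ 2 - 1))) *
          root N ^ ((4 * t.circles : ℤ) * ((N : ℤ) ^ 2 - 1)) := by
      rw [← zpow_add₀ hr0]
      congr 1
      ring
    rw [e3]
    linear_combination (-root N ^ (-((4 * (t.circles : ℤ) - e) * ((N : ℤ) ^ 2 - 1)))) * h2
  rw [e2]
  ring

end

variable {Ty Rt : ℕ → ℤ → Prop}

/-- From the iterated integrals to the Kashaev invariants: the expansion to all orders, the exponent
is the complex volume, which does not depend on the flattening. -/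
theorem arbx (hF : S_FINX Ty Rt) : ∃ K : ℕ, ∀ t : Tree, 1 ≤ t.children → Neat Ty Rt K t →
    (∀ N : ℕ, ContinuousAt (jones t N) (root N)) ∧
    ∃ V C : ℝ, IsGreatest {W : ℝ | ∃ y : AngleTree, y.tree = t ∧ IsAngle y ∧ vol y = W} V ∧
      (∀ C' : ℝ, HasCS t V C' ↔ ∃ k : ℤ, C' = C + k * Real.pi ^ 2) ∧
      (∀ x : FlatTree, x.angles.tree = t → IsAngle x.angles → vol x.angles = V → x.IsFlat →
        ∃ k : ℤ, x.complexVolume = Complex.I * (V + Complex.I * C) + k * (Real.pi : ℂ) ^ 2) ∧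
      (∀ e f : ℤ, ∃ (C : ℝ) (y : ℕ → ℂ), HasCS t V C ∧
        y 0 ≠ 0 ∧ EXY (kashaev e f t) ((V + Complex.I * C) / (2 * Real.pi)) y ∧
        EXY (kashaev (4 * t.circles - e) f t.mirror) ((V - Complex.I * C) / (2 * Real.pi))
          (fun k => (starRingEnd ℂ) (y k))) ∧
      (∀ s : Tree, t = s.double → HasCS t V 0 ∧ ∃ x : ℕ → ℝ, 0 < x 0 ∧
        EXY (kashaev (4 * s.circles) 1 t) ((V / (2 * Real.pi) : ℝ) : ℂ)
          (fun k => (x k : ℂ))) ∧
      (t.weight = 0 → (t.kids.map Tree.mirror).Perm t.kids → HasCS t V 0 ∧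
        ∃ (f : ℤ) (x : ℕ → ℝ), x 0 ≠ 0 ∧
        (∀ N : ℕ, 2 ≤ N → ∃ r : ℝ, kashaev (2 * t.circles) f t N = r) ∧
        EXY (kashaev (2 * t.circles) f t) ((V / (2 * Real.pi) : ℝ) : ℂ)
          (fun k => (x k : ℂ))) := by
  obtain ⟨K, hK0, hM⟩ := hF
  refine ⟨⌈K⌉₊, fun t hc ht => ?_⟩
  have hl := okR2_mono hK0.le (Nat.le_ceil K) _ (neat_ok _ t ht)
  obtain ⟨V, v, y, h2, hv, hy, hexp, hcu⟩ := hM (toTb t) hl (by rw [nc_to]; exact hc)
  obtain ⟨hcv, hun⟩ := hcu t rfl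
  have hj : ∀ N, jones t N = Pool.Agent.TH563.UV.jt (toTb t) N := fun N => jones_to t N
  have hroot : ∀ N : ℕ, root N = Pool.Agent.W711.HT.vN N := fun N => rfl
  have hE : EXY (fun N : ℕ => jones t N (root N)) v y := by
    intro K
    obtain ⟨C, hC⟩ := hexp K
    refine ⟨C, hC.mono fun N hN => ?_⟩
    beta_reduce
    rw [hj, hroot]
    exact hN
  have hV : IsGreatest {W : ℝ | ∃ y : AngleTree, y.tree = t ∧ IsAngle y ∧ vol y = W} V := by
    rw [volume_eq]
    exact h2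
  have h3 : ∀ e f : ℤ, ∃ (v : ℂ) (y : ℕ → ℂ), 2 * Real.pi * v.re = V ∧ IsComplexVolume t V v ∧
        y 0 ≠ 0 ∧ EXY (kashaev e f t) v y := by
    intro e f
    obtain ⟨y', hy', h⟩ := hE.frame hy e f
    refine ⟨_, y', ?_, ?_, hy', h⟩
    · have e1 : (v + Real.pi * Complex.I * (e + f)).re = v.re := by
        have : (Real.pi : ℂ) * Complex.I * (e + f) = ((Real.pi * (e + f) : ℝ) : ℂ) * Complex.I := by
          push_cast
          ring
        rw [this, Complex.add_re, Complex.re_ofReal_mul, Complex.I_re, mul_zero, add_zero]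
      rw [e1]
      exact hv
    · have := hcv.add (e + f)
      push_cast at this
      exact this
  have h3' : ∀ e f : ℤ, ∃ (v : ℂ) (y : ℕ → ℂ), 2 * Real.pi * v.re = V ∧
        y 0 ≠ 0 ∧ EXY (kashaev e f t) v y := by
    intro e f
    obtain ⟨v, y, g1, -, g2, g3⟩ := h3 e f
    exact ⟨v, y, g1, g2, g3⟩
  have key : ∀ (e f : ℤ) (x : ℕ → ℝ), x 0 ≠ 0 →
      EXY (kashaev e f t) ((V / (2 * Real.pi) : ℝ) : ℂ) (fun k => (x k : ℂ)) → HasCS t V 0 := by
    intro e f x hx h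
    obtain ⟨v, y, hv, hcv, hy, h'⟩ := h3 e f
    obtain ⟨n, hn⟩ := exy_unique hy (by exact_mod_cast hx) h' h
    have h6 := hcv.add (2 * n)
    have e1 : v + Real.pi * Complex.I * ((2 * n : ℤ) : ℂ) = ((V / (2 * Real.pi) : ℝ) : ℂ) := by
      rw [hn]
      push_cast
      ring
    rw [e1] at h6
    have h7 := h6.hasCS (by
      rw [Complex.ofReal_re]
      field_simp)
    rwa [Complex.ofReal_im, mul_zero] at h7
  have hC := hcv.hasCS hv
  have hiff : ∀ C' : ℝ, HasCS t V C' ↔ ∃ k : ℤ, C' = 2 * Real.pi * v.im + k * Real.pi ^ 2 := by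
    intro C'
    obtain ⟨x, x1, x2, x3, x4, n, x5⟩ := hC
    constructor
    · rintro ⟨z, z1, z2, z3, z4, m, z5⟩
      obtain ⟨j, hj⟩ := hun x z ⟨x1, x2, x3, x4⟩ ⟨z1, z2, z3, z4⟩
      refine ⟨n - m - j, ?_⟩
      have e1 : ((C' : ℂ)) = ((2 * Real.pi * v.im + (n - m - j : ℤ) * Real.pi ^ 2 : ℝ) : ℂ) := by
        push_cast at x5 ⊢
        linear_combination x5 - z5 - hj + ((C' : ℂ) - 2 * Real.pi * v.im) * Complex.I_sq
      exact_mod_cast e1
    · rintro ⟨k, rfl⟩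
      refine ⟨x, x1, x2, x3, x4, n - k, ?_⟩
      push_cast at x5 ⊢
      linear_combination x5 + (k : ℂ) * (Real.pi : ℂ) ^ 2 * Complex.I_sq
  refine ⟨fun N => ?_, V, 2 * Real.pi * v.im, hV, hiff, fun x x1 x2 x3 x4 => ?_, fun e f => ?_,
    fun s hs => ?_, fun hw hp => ?_⟩
  · rw [hj]
    exact Pool.Agent.TH639.J28.cnt _ _
  · obtain ⟨z, z1, z2, z3, z4, n, z5⟩ := hC
    obtain ⟨j, hj⟩ := hun z x ⟨z1, z2, z3, z4⟩ ⟨x1, x2, x3, x4⟩
    refine ⟨j - n, ?_⟩
    rw [hj]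
    push_cast at z5 ⊢
    linear_combination (-1 : ℂ) * z5
  · obtain ⟨v, y, hv, hcv, hy, h⟩ := h3 e f
    refine ⟨2 * Real.pi * v.im, y, hcv.hasCS hv, hy, ?_, ?_⟩
    · rw [← exp_form_v hv]
      exact h
    · have e1 : ((V : ℂ) - Complex.I * (2 * Real.pi * v.im : ℝ)) / (2 * Real.pi) =
          (starRingEnd ℂ) v := by
        have e2 := congrArg (starRingEnd ℂ) (exp_form_v hv)
        rw [e2, map_div₀, map_add, map_mul, map_mul, Complex.conj_I, Complex.conj_ofReal,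
          Complex.conj_ofReal, Complex.conj_ofReal, map_ofNat]
        ring
      rw [e1]
      refine exy_congr (exy_conj h) ?_
      filter_upwards [eventually_ge_atTop 2] with N hN
      rw [kashaev_mirror _ _ _ hN]
      congr 2
      ring
  · have h4 : ∃ x : ℕ → ℝ, 0 < x 0 ∧
        EXY (kashaev (4 * s.circles) 1 t) ((V / (2 * Real.pi) : ℝ) : ℂ)
          (fun k => (x k : ℂ)) := by
      subst hs
      exact dbl_part h3'
    obtain ⟨x, hx, h⟩ := h4
    exact ⟨key _ _ x hx.ne' h, x, hx, h⟩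
  · obtain ⟨f, x, hx, hr, h⟩ := perm_part hw hp h3'
    exact ⟨key _ _ x hx h, f, x, hx, hr, h⟩

end Pool.Agent.N561.AX
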