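import Pool.Agent.N561.AX.ArbGX

/-!
# Arborescent links with large and small vertices and clasps: the form used by the hand-ins
-/

set_option autoImplicit false

namespace Pool.Agent.N561.ArbG

open Finset Filter Topology
open Pool.Agent.TH563.UV.Arb
open Pool.Agent.TH563.CV
open Pool.Agent.W719.AX (EXY)

/-- the coloured Jones polynomial is continuous at the root of unity -/
lemma cont (t : Tree) (N : ℕ) : ContinuousAt (jones t N) (root N) := by
  have hj : jones t N = Pool.Agent.TH563.UV.jt (toTb t) N := jones_to t N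
  rw [hj]
  exact Pool.Agent.TH639.J28.cnt _ _

lemma re_p (V C : ℝ) : 2 * Real.pi * (((V : ℂ) + Complex.I * C) / (2 * Real.pi)).re = V := by
  have e2 : ((V : ℂ) + Complex.I * C) / (2 * Real.pi) =
      ((V / (2 * Real.pi) : ℝ) : ℂ) + ((C / (2 * Real.pi) : ℝ) : ℂ) * Complex.I := by
    push_cast
    ring
  rw [e2, Complex.add_re, Complex.re_ofReal_mul, Complex.I_re, mul_zero, add_zero,
    Complex.ofReal_re]
  field_simp

lemma re_m (V C : ℝ) : 2 * Real.pi * (((V : ℂ) - Complex.I * C) / (2 * Real.pi)).re = V := by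
  have e1 := re_p V (-C)
  rw [Complex.ofReal_neg] at e1
  have e2 : (V : ℂ) - Complex.I * C = V + Complex.I * -(C : ℂ) := by ring
  rw [e2]
  exact e1

/-- the expansions of the invariants of the link and of its mirror image -/
theorem mainM : ∃ K : ℕ, ∀ t : Tree, Fine K t → 1 ≤ t.children →
    ∃ V C₀ : ℝ, IsGreatest {W : ℝ | ∃ y : AngleTree, y.tree = t ∧ IsAngle y ∧ vol y = W} V ∧
      (∀ C : ℝ, HasCS t V C ↔ ∃ k : ℤ, C = C₀ + k * Real.pi ^ 2) ∧
      (∀ x : FlatTree, x.angles.tree = t → IsAngle x.angles → vol x.angles = V → x.IsFlat →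
        ∃ k : ℤ, x.complexVolume = Complex.I * (V + Complex.I * C₀) + k * (Real.pi : ℂ) ^ 2) ∧
      (∀ e f : ℤ, ∃ (C : ℝ) (y : ℕ → ℂ), HasCS t V C ∧
        y 0 ≠ 0 ∧ EXY (kashaev e f t) ((V + Complex.I * C) / (2 * Real.pi)) y) ∧
      (∀ e f : ℤ, ∃ (C : ℝ) (y : ℕ → ℂ), HasCS t V C ∧
        y 0 ≠ 0 ∧ EXY (kashaev e f t.mirror) ((V - Complex.I * C) / (2 * Real.pi)) y) ∧
      (∀ s : Tree, t = s.double → HasCS t V 0 ∧ ∃ x : ℕ → ℝ, 0 < x 0 ∧
        EXY (kashaev (4 * s.circles) 1 t) ((V / (2 * Real.pi) : ℝ) : ℂ)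
          (fun k => (x k : ℂ))) ∧
      (t.weight = 0 → (t.kids.map Tree.mirror).Perm t.kids → HasCS t V 0 ∧
        ∃ (f : ℤ) (x : ℕ → ℝ), x 0 ≠ 0 ∧
        (∀ N : ℕ, 2 ≤ N → ∃ r : ℝ, kashaev (2 * t.circles) f t N = r) ∧
        EXY (kashaev (2 * t.circles) f t) ((V / (2 * Real.pi) : ℝ) : ℂ)
          (fun k => (x k : ℂ))) := by
  obtain ⟨K, hK⟩ := mainX
  refine ⟨K, fun t ht hs => ?_⟩
  obtain ⟨-, V, C₀, h2, hC₀, hX, h3, h4, h5⟩ := hK t hs ht
  refine ⟨V, C₀, h2, hC₀, hX, fun e f => ?_, fun e f => ?_, h4, h5⟩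
  · obtain ⟨C, y, hC, hy, h, -⟩ := h3 e f
    exact ⟨C, y, hC, hy, h⟩
  · obtain ⟨C, y, hC, hy, -, h⟩ := h3 (4 * t.circles - e) f
    rw [sub_sub_cancel] at h
    exact ⟨C, _, hC, by simpa using hy, h⟩

end Pool.Agent.N561.ArbG
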