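import Pool.Agent.N561.AX.Stm
import Pool.Agent.N561.AX.StmG
import Pool.Agent.N561.V.Main2
import Pool.Agent.TH563.V.MainW

/-!
# Small vertices with expansions: the induction over the tree
-/

set_option autoImplicit false
set_option maxHeartbeats 1000000

namespace Pool.Agent.N561.AX

open Finset Filter Topology Metric
open Pool.Agent.W711.HT hiding XX
open Pool.Agent.TH563.UV
open Pool.Agent.TH563.V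
open Pool.Agent.TH563.Z (shape_nc kd_kappa gx_mono)
open Pool.Agent.W293.HT
open Pool.Agent.W719.AX (UX GX KXD cv)
open scoped Real

/-- the constants of the two scales -/
structure CX where
  (ρ₀ τ₀ κ₀ ε₀ ρa τa e κ₁ c₁ C₁ g : ℝ)

section

variable (kf : Bool → ℕ → ℤ → ℕ) (cen : ℕ → ℂ) (S : ℕ → ℂ → ℂ → ℂ) (s : ℂ → ℂ → ℂ) (q : CX)

/-- product over the children of a root near `0`, small scale -/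
def XV (t : Tb) : Prop := ∃ (F : ℂ → ℂ) (A : ℕ → ℂ → ℂ),
  GoodV q.e q.e q.κ₁ q.c₁ q.C₁ t.nc (XX t) F ∧ GX q.e q.e t.ne (XX t) F A ∧
  ∀ ψ ∈ Rc (3 * q.e) (3 * q.e), CfP' kf cen S s q.ρ₀ q.τ₀ q.g 0 t F ψ

/-- product over the children of a root near `0`, large scale -/
def XU (t : Tb) : Prop := ∃ (F : ℂ → ℂ) (A : ℕ → ℂ → ℂ),
  GoodU q.ρ₀ q.τ₀ q.κ₀ q.ε₀ s t.nc (XX t) F ∧ GX q.ρa q.τa t.ne (XX t) F A ∧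
  ∀ ψ ∈ Rc (3 * q.ρ₀) (3 * q.τ₀), CfP' kf cen S s q.ρ₀ q.τ₀ q.g 0 t F ψ

/-- child of a root near `0`, small scale -/
def ZV (c : Tb) : Prop := ∃ (F' : ℂ → ℂ) (A' : ℕ → ℂ → ℂ),
  GoodV q.e q.e q.κ₁ q.c₁ q.C₁ 1 (stpb c.bl c.wt (XX c)) F' ∧
  GX q.e q.e (c.ne + 1) (stpb c.bl c.wt (XX c)) F' A' ∧
  ∀ ψ ∈ Rc (3 * q.e) (3 * q.e), CfC' kf cen S s q.ρ₀ q.τ₀ q.g 0 c F' ψ

/-- child of a root near `0`, large scale -/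
def ZU (c : Tb) : Prop := ∃ (F' : ℂ → ℂ) (A' : ℕ → ℂ → ℂ),
  GoodU q.ρ₀ q.τ₀ q.κ₀ q.ε₀ s 1 (stpb c.bl c.wt (XX c)) F' ∧
  GX q.ρa q.τa (c.ne + 1) (stpb c.bl c.wt (XX c)) F' A' ∧
  ∀ ψ ∈ Rc (3 * q.ρ₀) (3 * q.τ₀), CfC' kf cen S s q.ρ₀ q.τ₀ q.g 0 c F' ψ

variable {kf cen S s q}

lemma xv_zero (he : 0 < q.e)
    (h0x : ∃ A : ℕ → ℂ → ℂ, GX q.e q.e 0 (fun _ _ => 1) (fun _ => 0) A) (b : Bool) (a : ℤ) :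
    XV kf cen S s q (.vx b a) := by
  obtain ⟨A, hA⟩ := h0x
  exact ⟨fun _ => 0, A, gv_one he he, hA, fun ψ _ => cfp_zero' 0 b a ψ⟩

lemma xv_succ (he : 0 < q.e)
    (hpx : ∀ (m m' : ℕ) (X Y : ℕ → ℂ → ℂ) (F G : ℂ → ℂ) (A B : ℕ → ℂ → ℂ),
      GX q.e q.e m X F A → GX q.e q.e m' Y G B →
      ∃ C : ℕ → ℂ → ℂ, GX q.e q.e (m + m') (fun N ψ => X N ψ * Y N ψ) (fun ψ => F ψ + G ψ) C)
    {t c : Tb} (h1 : XV kf cen S s q t) (h2 : ZV kf cen S s q c) :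
    XV kf cen S s q (.br t c) := by
  obtain ⟨F, A, a1, a2, a3⟩ := h1
  obtain ⟨F', A', b1, b2, b3⟩ := h2
  obtain ⟨A'', hA''⟩ := hpx _ _ _ _ _ _ _ _ a2 b2
  refine ⟨fun ψ => F ψ + F' ψ, A'', gv_mul he he a1 b1, ?_,
    fun ψ hψ => cfp_succ' (a3 ψ hψ) (b3 ψ hψ)⟩
  rw [ne_br]
  exact hA''

lemma xu_zero (h0 : GoodU q.ρ₀ q.τ₀ q.κ₀ q.ε₀ s 0 (fun _ _ => 1) (fun _ => 0))
    (h0x : ∃ A : ℕ → ℂ → ℂ, GX q.ρa q.τa 0 (fun _ _ => 1) (fun _ => 0) A) (b : Bool) (a : ℤ) :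
    XU kf cen S s q (.vx b a) := by
  obtain ⟨A, hA⟩ := h0x
  exact ⟨fun _ => 0, A, h0, hA, fun ψ _ => cfp_zero' 0 b a ψ⟩

lemma xu_succ (hp : ∀ (t : ℕ) (X Y : ℕ → ℂ → ℂ) (F G : ℂ → ℂ),
      GoodU q.ρ₀ q.τ₀ q.κ₀ q.ε₀ s t X F → GoodU q.ρ₀ q.τ₀ q.κ₀ q.ε₀ s 1 Y G →
      GoodU q.ρ₀ q.τ₀ q.κ₀ q.ε₀ s (t + 1) (fun N ψ => X N ψ * Y N ψ) (fun ψ => F ψ + G ψ))
    (hpx : ∀ (m m' : ℕ) (X Y : ℕ → ℂ → ℂ) (F G : ℂ → ℂ) (A B : ℕ → ℂ → ℂ),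
      GX q.ρa q.τa m X F A → GX q.ρa q.τa m' Y G B →
      ∃ C : ℕ → ℂ → ℂ, GX q.ρa q.τa (m + m') (fun N ψ => X N ψ * Y N ψ) (fun ψ => F ψ + G ψ) C)
    {t c : Tb} (h1 : XU kf cen S s q t) (h2 : ZU kf cen S s q c) :
    XU kf cen S s q (.br t c) := by
  obtain ⟨F, A, a1, a2, a3⟩ := h1
  obtain ⟨F', A', b1, b2, b3⟩ := h2
  obtain ⟨A'', hA''⟩ := hpx _ _ _ _ _ _ _ _ a2 b2
  refine ⟨fun ψ => F ψ + F' ψ, A'', hp _ _ _ _ _ a1 b1, ?_,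
    fun ψ hψ => cfp_succ' (a3 ψ hψ) (b3 ψ hψ)⟩
  rw [ne_br]
  exact hA''

/-- from the large to the small scale -/
lemma zv_of_zu {c₀ C₀ : ℝ} {dl : ℂ → ℂ → ℂ} (hK : KD q.ρ₀ q.τ₀ q.κ₀ c₀ s dl)
    (hε₁ : q.ε₀ ≤ 1) (hε₂ : q.ε₀ ≤ c₀ * q.τ₀ ^ 2 / 16)
    (hC₀ : ∀ ψ ∈ Rc (3 * q.ρ₀) (3 * q.τ₀), ∀ ψ' ∈ Rc (3 * q.ρ₀) (3 * q.τ₀), ‖s ψ ψ'‖ ≤ C₀)
    (he : 0 < q.e) (he₁ : q.e ≤ q.ρ₀) (he₂ : q.e ≤ q.τ₀)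
    (hκ : q.κ₁ ≤ q.κ₀) (hκ' : q.κ₁ / 2 < c₀ / 2 / 2 * q.e ^ 2) (hc : q.c₁ ≤ c₀ / 2)
    (hC : 8 * (1 + 3 * C₀) / q.τ₀ ^ 2 ≤ q.C₁) (hρ : q.e ≤ q.ρa) (hτ : q.e ≤ q.τa) {c : Tb}
    (h1 : ZU kf cen S s q c) : ZV kf cen S s q c := by
  obtain ⟨F', A', b1, b2, b3⟩ := h1
  have hρ0 := hK.hρ.1
  have hτ0 := hK.hτ.1
  have hc0 := hK.hc
  have h00 : (0 : ℂ) ∈ Rc (3 * q.ρ₀) (3 * q.τ₀) := by
    refine ⟨?_, ?_⟩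
    · rw [Complex.zero_re, abs_zero]; linarith
    · rw [Complex.zero_im, abs_zero]; linarith
  have hC00 : 0 ≤ C₀ := (norm_nonneg _).trans (hC₀ 0 h00 0 h00)
  have e1 := gv_of_gu hK hε₁ hε₂ hC₀ b1
  have e2 := gv_restrict hρ0 hτ0 (by positivity) (by positivity) e1 he he₁ he he₂ hκ hκ'
  refine ⟨F', A', gv_mono e2 le_rfl hc hC, gx_mono b2 hρ hτ, ?_⟩
  intro ψ hψ
  exact b3 ψ (rc_mono' (by linarith) (by linarith) hψ)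

/-- a large child or a child with a circle of a vertex near `0` -/
lemma zu_big {K r₀ : ℝ} (hr₀ : r₀ ≤ 1 / 10) (ha : q.e ≤ q.ρ₀) (hb : q.e ≤ q.τ₀)
    (hkid : ∀ (t m : ℕ) (X : ℕ → ℂ → ℂ) (F : ℂ → ℂ) (A : ℕ → ℂ → ℂ),
      GoodV q.e q.e q.κ₁ q.c₁ q.C₁ t X F → GX q.e q.e m X F A →
      ∀ (b : Bool) (a : ℤ), (b = false → K ^ 2 ≤ ((t + 1 : ℕ) : ℝ) ^ 2 + (a : ℝ) ^ 2) →
      ∃ (F' zs : ℂ → ℂ) (A' : ℕ → ℂ → ℂ),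
        GoodU q.ρ₀ q.τ₀ q.κ₀ q.ε₀ s 1 (stpb b a X) F' ∧
        GX q.ρa q.τa (m + 1) (stpb b a X) F' A' ∧
        ∀ ψ ∈ Rc (3 * q.ρ₀) (3 * q.τ₀), zs ψ ∈ Rc (3 * q.e) (3 * q.e) ∧ ‖zs ψ‖ ≤ r₀ ∧
          (b = true → zs ψ = 0) ∧
          (b = false → CPu q.e q.e r₀ (zs ψ) ∧ Complex.I * a * zs ψ / (2 * π) + Complex.I +
            deriv F (zs ψ) + deriv (fun w => s w ψ) (zs ψ) = 0) ∧
          F' ψ = vt b a (zs ψ) + F (zs ψ) + s (zs ψ) ψ ∧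
          HasDerivAt F' (deriv (fun w => s (zs ψ) w) ψ) ψ) {c : Tb}
    (hk : kf c.bl (c.nc + 1) c.wt = 0)
    (hbig : Tb.BigV K c.bl (c.nc + 1) c.wt) (hv : XV kf cen S s q c) :
    ZU kf cen S s q c := by
  obtain ⟨F, A, a1, a2, a3⟩ := hv
  obtain ⟨F', zs, A', b1, b2, b3⟩ := hkid c.nc c.ne (XX c) F A a1 a2 c.bl c.wt hbig
  refine ⟨F', A', b1, b2, fun ψ hψ => ?_⟩
  obtain ⟨c1, c2, c3, c4, c5, c6⟩ := b3 ψ hψ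
  exact cfc_00' hk (a3 _ c1) c3 (fun hf => ⟨cpu_mono (c4 hf).1 ha hb hr₀, (c4 hf).2⟩) c5 c6

/-- a vertex of medium size all of whose children are near `0` -/
lemma zu_med {K : ℝ} (hρ : 0 < q.ρ₀) (hτ : 0 < q.τ₀)
    (h1 : ∀ (t m : ℕ) (X : ℕ → ℂ → ℂ) (F : ℂ → ℂ) (A : ℕ → ℂ → ℂ),
      GoodU q.ρ₀ q.τ₀ q.κ₀ q.ε₀ s t X F → GX q.ρa q.τa m X F A →
      ∀ a : ℤ, K ^ 2 ≤ ((t + 1 : ℕ) : ℝ) ^ 2 + (a : ℝ) ^ 2 →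
        ∃ (F' : ℂ → ℂ) (zs : ℂ → ℂ) (A' : ℕ → ℂ → ℂ),
        GoodU q.ρ₀ q.τ₀ q.κ₀ q.ε₀ s 1 (stpb false a X) F' ∧
        GX q.ρa q.τa (m + 1) (stpb false a X) F' A' ∧
        ∀ ψ' ∈ Rc (3 * q.ρ₀) (3 * q.τ₀), CPu q.ρ₀ q.τ₀ (1 / 10) (zs ψ') ∧
          Complex.I * a * zs ψ' / (2 * π) + Complex.I + deriv F (zs ψ') +
            deriv (fun w => s w ψ') (zs ψ') = 0 ∧
          F' ψ' = qq a F (zs ψ') + s (zs ψ') ψ' ∧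
          HasDerivAt F' (deriv (fun w => s (zs ψ') w) ψ') ψ')
    {c : Tb} (hb : c.bl = false) (hk : kf c.bl (c.nc + 1) c.wt = 0)
    (hbig : K ^ 2 ≤ ((c.nc + 1 : ℕ) : ℝ) ^ 2 + (c.wt : ℝ) ^ 2) (h2 : XU kf cen S s q c) :
    ZU kf cen S s q c := by
  obtain ⟨F, A, a1, a2, a3⟩ := h2
  obtain ⟨F', zs, A', b1, b2, b3⟩ := h1 c.nc c.ne (XX c) F A a1 a2 c.wt hbig
  refine ⟨F', A', by rw [hb]; exact b1, by rw [hb]; exact b2, fun ψ hψ => ?_⟩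
  obtain ⟨z1, z2, z3, z4⟩ := b3 ψ hψ
  refine cfc_00' hk (a3 _ (Rc_subU hρ hτ z1.mem)) (fun hb' => ?_) (fun _ => ⟨z1, z2⟩) ?_ z4
  · rw [hb] at hb'
    exact absurd hb' (by simp)
  · rw [z3, hb]
    simp [vt, qq]

/-- a small child -/
lemma zv_small {a : ℤ} {k : ℕ} {zs F Φ : ℂ → ℂ} {A : ℕ → ℂ → ℂ} (hk0 : k ≠ 0)
    (hg : 3 * q.e + 3 * q.e ≤ q.g) {c : Tb} (hb : c.bl = false)
    (hk : kf c.bl (c.nc + 1) c.wt = k) (ha : a = c.wt)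
    (b1 : GoodV q.e q.e q.κ₁ q.c₁ q.C₁ 1 (stp a (XX c)) F)
    (b1' : GX q.e q.e (c.ne + 1) (stp a (XX c)) F A)
    (b2 : ∀ ψ ∈ Rc (3 * q.e) (3 * q.e), ‖zs ψ - cen k‖ ≤ q.g ∧
      CfP' kf cen S s q.ρ₀ q.τ₀ q.g k c Φ (zs ψ) ∧
        Complex.I * a * zs ψ / (2 * π) + Complex.I + deriv Φ (zs ψ) +
          deriv (fun w => S k ψ w) (zs ψ) = 0 ∧
        F ψ = qq a Φ (zs ψ) + S k ψ (zs ψ) ∧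
        HasDerivAt F (deriv (fun w => S k w (zs ψ)) ψ) ψ) : ZV kf cen S s q c := by
  refine ⟨F, A, ?_, ?_, fun ψ hψ => ?_⟩
  · rw [stpb_false hb, ← ha]
    exact b1
  · rw [stpb_false hb, ← ha]
    exact b1'
  · obtain ⟨c1, c2, c3, c4, c5⟩ := b2 ψ hψ
    have hψ' : ‖ψ‖ ≤ q.g := by
      refine (Complex.norm_le_abs_re_add_abs_im ψ).trans ?_
      have h1 := hψ.1
      have h2 := hψ.2
      linarith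
    rw [ha] at c3 c4
    exact cfc_0k' hk0 hk hb c2 hψ' c1 c3 c4 c5

end

end Pool.Agent.N561.AX
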