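import Pool.Agent.N561.AX.IndX
import Pool.Agent.TH563.CV.MainVC

/-!
# Small vertices with expansions: proof of the main theorem from the packages
-/

set_option autoImplicit false
set_option maxHeartbeats 2000000

namespace Pool.Agent.N561.AX

open Finset Filter Topology Metric
open Pool.Agent.W711.HT hiding XX
open Pool.Agent.TH563.UV
open Pool.Agent.TH563.V
open Pool.Agent.TH563.UV.Arb (Tree toTb)
open Pool.Agent.TH563.V.Arb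
open Pool.Agent.TH563.CV (IsComplexVolume)
open Pool.Agent.TH563.CU (Unq)
open Pool.Agent.TH563.Z (shape_nc kd_kappa gx_mono exy_of_ux re_shift)
open Pool.Agent.W293.HT
open Pool.Agent.W719.AX (UX GX KXD EXY cv)
open scoped Real

section

variable (Ty Rt : ℕ → ℤ → Prop)

/-- everything about a type, with expansions -/
def TOKX (n : ℕ) (a : ℤ) : Prop := ∃ (z₀ : ℂ) (S : ℂ → ℂ → ℂ), GEOC z₀ S ∧ ∀ g : ℝ, 0 < g →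
  ∃ (U : Set ℂ) (P : ℕ → ℕ → (ℕ → ℂ → ℂ) → (ℂ → ℂ) → Prop)
    (C : ℕ → (ℕ → ℂ → ℂ) → (ℂ → ℂ) → Prop) (r₂ c₁ C₁ : ℝ), 0 < r₂ ∧ 0 < c₁ ∧ 0 < C₁ ∧
    (KPX n a z₀ g S U P C r₂ c₁ C₁ ∨ (n = 1 ∧ LPX a z₀ g S r₂ c₁ C₁)) ∧
    (Rt n a → KPX n a z₀ g S U P C r₂ c₁ C₁ ∧ RTX n a z₀ g U P)

/-- the expansion of the invariants; the growth rate is the maximal volume and the exponent is the
complex volume, which is unique -/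
def S_FINX : Prop := ∃ K : ℝ, 0 < K ∧ ∀ t : Tb, OkR2 Ty Rt K t → 1 ≤ t.nc →
  ∃ (V : ℝ) (v : ℂ) (y : ℕ → ℂ),
    IsGreatest {W : ℝ | ∃ y : AB, y.shape = t ∧ y.IsAng ∧ y.vol = W} V ∧
    2 * π * v.re = V ∧ y 0 ≠ 0 ∧ EXY (fun N : ℕ => jt t N (vN N)) v y ∧
    ∀ t' : Tree, t = toTb t' → IsComplexVolume t' V v ∧ Unq t' V

end

variable {Ty Rt : ℕ → ℤ → Prop}

lemma tokx_of_kprx {n : ℕ} {a : ℤ} {z₀ : ℂ} {S : ℂ → ℂ → ℂ} (h1 : GEOC z₀ S)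
    (h2 : KPRX n a z₀ S) : TOKX Rt n a := by
  refine ⟨z₀, S, h1, fun g hg => ?_⟩
  obtain ⟨U, P, C, r₂, c₁, C₁, h3, h4⟩ := h2 g hg
  exact ⟨U, P, C, r₂, c₁, C₁, h3.hr₂, h3.hc₁, h3.hC₁, Or.inl h3, fun _ => ⟨h3, h4⟩⟩

lemma tokx_of_lpx {a : ℤ} {z₀ : ℂ} {S : ℂ → ℂ → ℂ} (h1 : GEOC z₀ S)
    (h2 : ∀ g : ℝ, 0 < g → ∃ r₂ c₁ C₁ : ℝ, 0 < r₂ ∧ 0 < c₁ ∧ 0 < C₁ ∧ LPX a z₀ g S r₂ c₁ C₁)
    (hr : ¬ Rt 1 a) : TOKX Rt 1 a := by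
  refine ⟨z₀, S, h1, fun g hg => ?_⟩
  obtain ⟨r₂, c₁, C₁, h3, h4, h5, h6⟩ := h2 g hg
  exact ⟨∅, fun _ _ _ _ => True, fun _ _ _ => True, r₂, c₁, C₁, h3, h4, h5, Or.inr ⟨rfl, h6⟩,
    fun h => absurd h hr⟩

lemma leaf_ne {c : Tb} (h : c.nc + 1 = 1) : c.ne = 0 := by
  cases c with
  | vx b a => rfl
  | br t c =>
    exfalso
    have : (Tb.br t c).nc = t.nc + 1 := rfl
    omega

theorem mainx (hVF : S_VF) (hVT : S_VT) (hVFX : S_VFX) (hVTX : S_VTX) (hVL : S_VL)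
    (hVLT : S_VLT) (hT : ∀ n a, Ty n a → 1 ≤ n → TOKX Rt n a) (hGE : S_GEOX) : S_FINX Ty Rt := by
  classical
  have hπ := Real.pi_pos
  obtain ⟨ρ₀, τ₀, κ₁, c₀, s, dl, hK1⟩ := Pool.Agent.W719.AR.f_KER
  obtain ⟨κ₀, hκ₀⟩ : ∃ κ₀ : ℝ, κ₀ = min κ₁ (min (c₀ * τ₀ ^ 2) 1) := ⟨_, rfl⟩
  have hρ₀ := hK1.hρ.1
  have hτ₀ := hK1.hτ.1
  have hc₀ := hK1.hc
  have hκ₀0 : 0 < κ₀ := by
    rw [hκ₀]
    exact lt_min hK1.hκ.1 (lt_min (by positivity) one_pos)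
  have hκa : κ₀ ≤ κ₁ := by rw [hκ₀]; exact min_le_left _ _
  have hκb : κ₀ ≤ c₀ * τ₀ ^ 2 := by
    rw [hκ₀]; exact (min_le_right _ _).trans (min_le_left _ _)
  have hκc : κ₀ ≤ 1 := by rw [hκ₀]; exact (min_le_right _ _).trans (min_le_right _ _)
  have hK := kd_kappa hK1 hκ₀0 hκa
  obtain ⟨C₀, hC₀⟩ := hK.sbd
  -- the large scale
  obtain ⟨ρa, τa, hρa, hτa, Ak, hAk⟩ :=
    Pool.Agent.W719.AX.f_KXC Pool.Agent.W719.AX.f_WIN ρ₀ τ₀ κ₀ c₀ s dl hK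
  obtain ⟨ε₀, K₁, hε₀, hε₀1, hK₁0, hreal, hU1, hU2⟩ :=
    f_STEPU ρ₀ τ₀ κ₀ c₀ s dl hK ρa τa Ak hρa hτa hAk
  have hρa0 := hAk.hρ
  have hτa0 := hAk.hτ
  obtain ⟨p0, p1⟩ := f_PRU ρ₀ τ₀ κ₀ c₀ s dl hK ε₀ hε₀
  obtain ⟨p0x, p1x⟩ := (Pool.Agent.W52.AX.prdx Pool.Agent.W303.AX.uxmul) ρa τa
  obtain ⟨Cs, hEs⟩ := ed_s hK
  -- the types
  have htype : ∀ k : ℕ, ∃ (z₀ : ℂ) (S : ℂ → ℂ → ℂ), Ty (nk2 k) (ak2 k) → 1 ≤ nk2 k →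
      GEOC z₀ S ∧ ∀ g : ℝ, 0 < g →
      ∃ (U : Set ℂ) (P : ℕ → ℕ → (ℕ → ℂ → ℂ) → (ℂ → ℂ) → Prop)
        (C : ℕ → (ℕ → ℂ → ℂ) → (ℂ → ℂ) → Prop) (r₂ c₁ C₁ : ℝ), 0 < r₂ ∧ 0 < c₁ ∧ 0 < C₁ ∧
        (KPX (nk2 k) (ak2 k) z₀ g S U P C r₂ c₁ C₁ ∨
          (nk2 k = 1 ∧ LPX (ak2 k) z₀ g S r₂ c₁ C₁)) ∧
        (Rt (nk2 k) (ak2 k) → KPX (nk2 k) (ak2 k) z₀ g S U P C r₂ c₁ C₁ ∧
          RTX (nk2 k) (ak2 k) z₀ g U P) := by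
    intro k
    by_cases hk : Ty (nk2 k) (ak2 k) ∧ 1 ≤ nk2 k
    · obtain ⟨z₀, S, h1, h2⟩ := hT _ _ hk.1 hk.2
      exact ⟨z₀, S, fun _ _ => ⟨h1, h2⟩⟩
    · exact ⟨0, fun _ _ => 0, fun h1 h2 => absurd ⟨h1, h2⟩ hk⟩
  choose cen S hS using htype
  -- the medium vertices
  obtain ⟨D, hD0, hD⟩ := kf2_lt (Ty := Ty) K₁
  have hadm : ∀ b n a, kf2 Ty K₁ b n a ≠ 0 → Ty (nk2 (kf2 Ty K₁ b n a)) (ak2 (kf2 Ty K₁ b n a)) ∧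
      1 ≤ nk2 (kf2 Ty K₁ b n a) := by
    intro b n a hk
    obtain ⟨-, h1, h2, h3, h4⟩ := kf2_spec hk
    rw [h1, h2]
    exact ⟨h3, h4⟩
  -- geometry
  obtain ⟨g, hg, hgeo⟩ := hGE ρ₀ τ₀ κ₀ c₀ s dl hK (kf2 Ty K₁) cen S D (kf2_true Ty K₁) hD
    (fun b n a hk => (hS _ (hadm b n a hk).1 (hadm b n a hk).2).1)
  -- the packages
  have hhub : ∀ k : ℕ, ∃ (U : Set ℂ) (P : ℕ → ℕ → (ℕ → ℂ → ℂ) → (ℂ → ℂ) → Prop)
      (C : ℕ → (ℕ → ℂ → ℂ) → (ℂ → ℂ) → Prop) (r₂ c₁ C₁ : ℝ), 0 < r₂ ∧ 0 < c₁ ∧ 0 < C₁ ∧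
      (Ty (nk2 k) (ak2 k) → 1 ≤ nk2 k →
        (KPX (nk2 k) (ak2 k) (cen k) g (S k) U P C r₂ c₁ C₁ ∨
          (nk2 k = 1 ∧ LPX (ak2 k) (cen k) g (S k) r₂ c₁ C₁)) ∧
        (Rt (nk2 k) (ak2 k) → KPX (nk2 k) (ak2 k) (cen k) g (S k) U P C r₂ c₁ C₁ ∧
          RTX (nk2 k) (ak2 k) (cen k) g U P)) := by
    intro k
    by_cases hk : Ty (nk2 k) (ak2 k) ∧ 1 ≤ nk2 k
    · obtain ⟨U, P, C, r₂, c₁, C₁, h1, h2, h3, h4⟩ := (hS k hk.1 hk.2).2 g hg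
      exact ⟨U, P, C, r₂, c₁, C₁, h1, h2, h3, fun _ _ => h4⟩
    · exact ⟨∅, fun _ _ _ _ => True, fun _ _ _ => True, 1, 1, 1, one_pos, one_pos, one_pos,
        fun h1 h2 => absurd ⟨h1, h2⟩ hk⟩
  choose U P C r₂ cs Cs' hr₂ hcs hCs hh using hhub
  -- the small scale
  obtain ⟨e1, he10, he1⟩ := fin_pos (range D) r₂ (fun k _ => hr₂ k)
  obtain ⟨e, he0, he3, heρ, heτ, heg, hea, heb⟩ : ∃ e : ℝ, 0 < e ∧ 3 * e ≤ e1 ∧ e ≤ ρ₀ ∧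
      e ≤ τ₀ ∧ 3 * e + 3 * e ≤ g ∧ e ≤ ρa ∧ e ≤ τa := by
    refine ⟨min (min (e1 / 3) (min (min ρ₀ τ₀) (g / 6))) (min ρa τa), ?_, ?_, ?_, ?_, ?_, ?_, ?_⟩
    · exact lt_min (lt_min (by positivity) (lt_min (lt_min hρ₀ hτ₀) (by positivity)))
        (lt_min hρa0 hτa0)
    · have h1 : min (min (e1 / 3) (min (min ρ₀ τ₀) (g / 6))) (min ρa τa) ≤ e1 / 3 :=
        (min_le_left _ _).trans (min_le_left _ _)
      linarith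
    · exact (min_le_left _ _).trans ((min_le_right _ _).trans
        ((min_le_left _ _).trans (min_le_left _ _)))
    · exact (min_le_left _ _).trans ((min_le_right _ _).trans
        ((min_le_left _ _).trans (min_le_right _ _)))
    · have : min (min (e1 / 3) (min (min ρ₀ τ₀) (g / 6))) (min ρa τa) ≤ g / 6 :=
        (min_le_left _ _).trans ((min_le_right _ _).trans (min_le_right _ _))
      linarith
    · exact (min_le_right _ _).trans (min_le_left _ _)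
    · exact (min_le_right _ _).trans (min_le_right _ _)
  have he14 : e ≤ 1 / 4 := heρ.trans hK.hρ.2
  have he3k : ∀ k, k < D → 3 * e ≤ r₂ k := fun k hk => he3.trans (he1 k (mem_range.2 hk))
  have hstep : ∀ k : ℕ, ∃ κ₁ : ℝ, 0 < κ₁ ∧ (k < D →
      (KPX (nk2 k) (ak2 k) (cen k) g (S k) (U k) (P k) (C k) (r₂ k) (cs k) (Cs' k) →
      ∀ (m : ℕ) (X : ℕ → ℂ → ℂ) (Φ : ℂ → ℂ), P k (nk2 k - 1) m X Φ →
      ∃ (F zs : ℂ → ℂ) (A : ℕ → ℂ → ℂ),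
      GoodV e e κ₁ (cs k) (Cs' k) 1 (stp (ak2 k) X) F ∧ GX e e (m + 1) (stp (ak2 k) X) F A ∧
      ∀ ψ ∈ Rc (3 * e) (3 * e), ‖zs ψ - cen k‖ ≤ g ∧ zs ψ ∈ U k ∧
        Complex.I * (ak2 k) * zs ψ / (2 * π) + Complex.I + deriv Φ (zs ψ) +
          deriv (fun w => S k ψ w) (zs ψ) = 0 ∧
        F ψ = qq (ak2 k) Φ (zs ψ) + S k ψ (zs ψ) ∧
        HasDerivAt F (deriv (fun w => S k w (zs ψ)) ψ) ψ) ∧
      (LPX (ak2 k) (cen k) g (S k) (r₂ k) (cs k) (Cs' k) →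
      ∃ (F zs : ℂ → ℂ) (A : ℕ → ℂ → ℂ),
      GoodV e e κ₁ (cs k) (Cs' k) 1 (stp (ak2 k) fun _ _ => 1) F ∧
      GX e e 1 (stp (ak2 k) fun _ _ => 1) F A ∧
      ∀ ψ ∈ Rc (3 * e) (3 * e), ‖zs ψ - cen k‖ ≤ g ∧
        Complex.I * (ak2 k) * zs ψ / (2 * π) + Complex.I + deriv (fun w => S k ψ w) (zs ψ) = 0 ∧
        F ψ = qq (ak2 k) (fun _ => 0) (zs ψ) + S k ψ (zs ψ) ∧
        HasDerivAt F (deriv (fun w => S k w (zs ψ)) ψ) ψ)) := by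
    intro k
    by_cases hkD : k < D
    · obtain ⟨κa, ha0, ha⟩ : ∃ κ₁ : ℝ, 0 < κ₁ ∧
          (KPX (nk2 k) (ak2 k) (cen k) g (S k) (U k) (P k) (C k) (r₂ k) (cs k) (Cs' k) →
          ∀ (m : ℕ) (X : ℕ → ℂ → ℂ) (Φ : ℂ → ℂ), P k (nk2 k - 1) m X Φ →
          ∃ (F zs : ℂ → ℂ) (A : ℕ → ℂ → ℂ),
          GoodV e e κ₁ (cs k) (Cs' k) 1 (stp (ak2 k) X) F ∧
          GX e e (m + 1) (stp (ak2 k) X) F A ∧
          ∀ ψ ∈ Rc (3 * e) (3 * e), ‖zs ψ - cen k‖ ≤ g ∧ zs ψ ∈ U k ∧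
            Complex.I * (ak2 k) * zs ψ / (2 * π) + Complex.I + deriv Φ (zs ψ) +
              deriv (fun w => S k ψ w) (zs ψ) = 0 ∧
            F ψ = qq (ak2 k) Φ (zs ψ) + S k ψ (zs ψ) ∧
            HasDerivAt F (deriv (fun w => S k w (zs ψ)) ψ) ψ) := by
        by_cases h : KPX (nk2 k) (ak2 k) (cen k) g (S k) (U k) (P k) (C k) (r₂ k) (cs k) (Cs' k)
        · obtain ⟨κ₁, h1, h2⟩ := h.step e e he0 le_rfl (he3k k hkD)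
          exact ⟨κ₁, h1, fun _ => h2⟩
        · exact ⟨1, one_pos, fun h' => absurd h' h⟩
      obtain ⟨κb, hb0, hb⟩ : ∃ κ₁ : ℝ, 0 < κ₁ ∧
          (LPX (ak2 k) (cen k) g (S k) (r₂ k) (cs k) (Cs' k) →
          ∃ (F zs : ℂ → ℂ) (A : ℕ → ℂ → ℂ),
          GoodV e e κ₁ (cs k) (Cs' k) 1 (stp (ak2 k) fun _ _ => 1) F ∧
          GX e e 1 (stp (ak2 k) fun _ _ => 1) F A ∧
          ∀ ψ ∈ Rc (3 * e) (3 * e), ‖zs ψ - cen k‖ ≤ g ∧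
            Complex.I * (ak2 k) * zs ψ / (2 * π) + Complex.I +
              deriv (fun w => S k ψ w) (zs ψ) = 0 ∧
            F ψ = qq (ak2 k) (fun _ => 0) (zs ψ) + S k ψ (zs ψ) ∧
            HasDerivAt F (deriv (fun w => S k w (zs ψ)) ψ) ψ) := by
        by_cases h : LPX (ak2 k) (cen k) g (S k) (r₂ k) (cs k) (Cs' k)
        · obtain ⟨κ₁, h1, h2⟩ := h e e he0 le_rfl (he3k k hkD)
          exact ⟨κ₁, h1, fun _ => h2⟩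
        · exact ⟨1, one_pos, fun h' => absurd h' h⟩
      refine ⟨min κa κb, lt_min ha0 hb0, fun _ => ⟨fun h m X Φ hX => ?_, fun h => ?_⟩⟩
      · obtain ⟨F, zs, A, h1, h2⟩ := ha h m X Φ hX
        exact ⟨F, zs, A, gv_mono h1 (min_le_left _ _) le_rfl le_rfl, h2⟩
      · obtain ⟨F, zs, A, h1, h2⟩ := hb h
        exact ⟨F, zs, A, gv_mono h1 (min_le_right _ _) le_rfl le_rfl, h2⟩
    · exact ⟨1, one_pos, fun h1 => absurd h1 hkD⟩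
  choose κk₁ hκk hst using hstep
  obtain ⟨km, hkm0, hkm⟩ := fin_pos (range D) κk₁ (fun k _ => hκk k)
  obtain ⟨cm, hcm0, hcm⟩ := fin_pos (range D) cs (fun k _ => hcs k)
  obtain ⟨CM, hCM0, hCM⟩ := fin_bdd (range D) Cs'
  obtain ⟨c₁, hc₁0, hc₁m, hc₁c⟩ : ∃ c₁ : ℝ, 0 < c₁ ∧ c₁ ≤ cm ∧ c₁ ≤ c₀ / 2 :=
    ⟨min cm (c₀ / 2), lt_min hcm0 (by positivity), min_le_left _ _, min_le_right _ _⟩
  obtain ⟨κs, hκs0, hκsm, hκs₀, hκse⟩ : ∃ κs : ℝ, 0 < κs ∧ κs ≤ km ∧ κs ≤ κ₀ ∧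
      κs / 2 < c₀ / 2 / 2 * e ^ 2 := by
    refine ⟨min km (min κ₀ (c₀ / 4 * e ^ 2)), ?_, min_le_left _ _,
      (min_le_right _ _).trans (min_le_left _ _), ?_⟩
    · exact lt_min hkm0 (lt_min hκ₀0 (by positivity))
    · have h1 : min km (min κ₀ (c₀ / 4 * e ^ 2)) ≤ c₀ / 4 * e ^ 2 :=
        (min_le_right _ _).trans (min_le_right _ _)
      have h2 : 0 < c₀ * e ^ 2 := by positivity
      linarith
  obtain ⟨C₁, hC₁0, hC₁M, hC₁c⟩ : ∃ C₁ : ℝ, 0 < C₁ ∧ CM ≤ C₁ ∧ 8 * (1 + 3 * C₀) / τ₀ ^ 2 ≤ C₁ :=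
    ⟨max CM (8 * (1 + 3 * C₀) / τ₀ ^ 2), lt_max_of_lt_left hCM0, le_max_left _ _, le_max_right _ _⟩
  obtain ⟨r₀, hr₀0, hr₀a, hr₀g, hr₀e⟩ : ∃ r₀ : ℝ, 0 < r₀ ∧ r₀ ≤ 1 / 10 ∧ r₀ ≤ g ∧
      r₀ < min e e / 4 := by
    rw [min_self]
    refine ⟨min (1 / 10) (min g (e / 8)), lt_min (by norm_num) (lt_min hg (by positivity)),
      min_le_left _ _, (min_le_right _ _).trans (min_le_left _ _), ?_⟩
    have : min (1 / 10) (min g (e / 8)) ≤ e / 8 := (min_le_right _ _).trans (min_le_right _ _)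
    linarith
  -- the large vertices
  obtain ⟨κe, hκe0, hκe1, hκe2⟩ : ∃ κe : ℝ, 0 < κe ∧ κe ≤ κ₀ ∧ κe < c₀ / 2 * e ^ 2 := by
    refine ⟨min κ₀ (c₀ / 4 * e ^ 2), lt_min hκ₀0 (by positivity), min_le_left _ _, ?_⟩
    have h1 : min κ₀ (c₀ / 4 * e ^ 2) ≤ c₀ / 4 * e ^ 2 := min_le_right _ _
    have h2 : 0 < c₀ * e ^ 2 := by positivity
    linarith
  have hEs2 := ed_restrict hEs he0 heρ he0 heτ le_rfl hκe0 hκe1 hκe2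
  obtain ⟨KA, hKA0, hkidA⟩ := kida hVF hVT hVFX hVTX hK hε₀ hEs2 hr₀0 hκs0 hc₁0 hC₁0 hAk he0 he0
    le_rfl le_rfl hea heb hρa hτa hr₀e heρ heτ
  have hkidk : ∀ k : ℕ, ∃ K : ℝ, 0 < K ∧ (k < D →
      KPX (nk2 k) (ak2 k) (cen k) g (S k) (U k) (P k) (C k) (r₂ k) (cs k) (Cs' k) →
      ∀ (t m : ℕ) (X : ℕ → ℂ → ℂ) (F : ℂ → ℂ) (A : ℕ → ℂ → ℂ), GoodV e e κs c₁ C₁ t X F →
      GX e e m X F A →
      ∀ (b : Bool) (a' : ℤ), (b = false → K ^ 2 ≤ ((t + 1 : ℕ) : ℝ) ^ 2 + (a' : ℝ) ^ 2) →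
      ∃ F' zs : ℂ → ℂ, C k (m + 1) (stpb b a' X) F' ∧
        ∀ φ ∈ U k, zs φ ∈ Rc (3 * e) (3 * e) ∧ ‖zs φ‖ ≤ r₀ ∧ (b = true → zs φ = 0) ∧
          (b = false → CPu e e r₀ (zs φ) ∧ Complex.I * a' * zs φ / (2 * π) + Complex.I +
            deriv F (zs φ) + deriv (fun w => S k w φ) (zs φ) = 0) ∧
          F' φ = vt b a' (zs φ) + F (zs φ) + S k (zs φ) φ ∧
          HasDerivAt F' (deriv (fun w => S k (zs φ) w) φ) φ) := by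
    intro k
    by_cases hk : k < D ∧
        KPX (nk2 k) (ak2 k) (cen k) g (S k) (U k) (P k) (C k) (r₂ k) (cs k) (Cs' k)
    · obtain ⟨K, hK0, h1⟩ := hk.2.kid e r₀ κs c₁ C₁ he0 (he3k k hk.1) hr₀0 hκs0 hc₁0 hC₁0
      exact ⟨K, hK0, fun _ _ => h1⟩
    · exact ⟨1, one_pos, fun h1 h2 => absurd ⟨h1, h2⟩ hk⟩
  choose Kk hKk0 hkidk using hkidk
  obtain ⟨KZ, hKZ0, hKZ⟩ := fin_bdd (range D) Kk
  -- the last step
  obtain ⟨KL, hKL0, hlast⟩ := hVL e e κs c₁ C₁ he0 he14 he0 le_rfl hκs0 hc₁0 hC₁0 e e he0 le_rfl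
    he0 le_rfl r₀ hr₀0
  have hlastT := hVLT e e κs c₁ C₁ he0 he14 he0 le_rfl hκs0 hc₁0 hC₁0 e e he0 le_rfl he0 le_rfl
  obtain ⟨p0y, p1y⟩ := (Pool.Agent.W52.AX.prdx Pool.Agent.W303.AX.uxmul) e e
  obtain ⟨K, hKK₁, hKA, hKZ', hKL⟩ : ∃ K : ℝ, K₁ ≤ K ∧ KA ≤ K ∧ KZ ≤ K ∧ KL ≤ K :=
    ⟨max (max K₁ KA) (max KZ KL), (le_max_left _ _).trans (le_max_left _ _),
      (le_max_right _ _).trans (le_max_left _ _), (le_max_left _ _).trans (le_max_right _ _),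
      (le_max_right _ _).trans (le_max_right _ _)⟩
  have hK0 : 0 < K := hK₁0.trans_le hKK₁
  -- the induction
  obtain ⟨q, hq⟩ : ∃ q : CX, q = ⟨ρ₀, τ₀, κ₀, ε₀, ρa, τa, e, κs, c₁, C₁, g⟩ := ⟨_, rfl⟩
  have hind := fun t => main_ind2 (Ty := Ty) (kf := kf2 Ty K₁) (K := K)
    (Pv := XV (kf2 Ty K₁) cen S s q) (Pu := XU (kf2 Ty K₁) cen S s q)
    (Hv := ZV (kf2 Ty K₁) cen S s q) (Hu := ZU (kf2 Ty K₁) cen S s q)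
    (Pz := fun k t => KPX (nk2 k) (ak2 k) (cen k) g (S k) (U k) (P k) (C k) (r₂ k) (cs k) (Cs' k) →
      ∃ Φ : ℂ → ℂ, P k t.nc t.ne (XX t) Φ ∧
        ∀ φ ∈ U k, CfP' (kf2 Ty K₁) cen S s ρ₀ τ₀ g k t Φ φ)
    (Hz := fun k c => KPX (nk2 k) (ak2 k) (cen k) g (S k) (U k) (P k) (C k) (r₂ k) (cs k) (Cs' k) →
      ∃ F' : ℂ → ℂ, C k (c.ne + 1) (stpb c.bl c.wt (XX c)) F' ∧
        ∀ φ ∈ U k, CfC' (kf2 Ty K₁) cen S s ρ₀ τ₀ g k c F' φ)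
    (by rw [hq]; exact fun b a => xv_zero he0 p0y b a)
    (by rw [hq]; exact fun b a => xu_zero p0 p0x b a)
    (fun k b a h => ⟨fun _ => 0, h.zero, fun φ _ => cfp_zero' k b a φ⟩)
    (by rw [hq]; exact fun t c h1 h2 => xv_succ he0 p1y h1 h2)
    (by rw [hq]; exact fun t c h1 h2 => xu_succ p1 p1x h1 h2)
    (by
      intro k t c h1 h2 h
      obtain ⟨Φ, a1, a2⟩ := h1 h
      obtain ⟨F', b1, b2⟩ := h2 h
      refine ⟨fun φ => Φ φ + F' φ, ?_, fun φ hφ => cfp_succ' (a2 φ hφ) (b2 φ hφ)⟩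
      rw [ne_br]
      exact h.succ _ _ _ _ _ _ _ a1 b1)
    (by
      rw [hq]
      exact fun c h1 => zv_of_zu hK (by linarith) (by linarith) hC₀ he0 heρ heτ hκs₀ hκse
        hc₁c hC₁c hea heb h1)
    (by
      rw [hq]
      intro c h1 h2
      refine zu_big (K := KA) hr₀a heρ heτ hkidA (kf2_big hK₁0.le hKK₁ h1)
        (fun hf => (pow_le_pow_left₀ hKA0.le hKA 2).trans (h1 hf)) h2)
    (by
      rw [hq]
      intro c h1 h1' h2 h3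
      exact zu_med (K := K₁) hρ₀ hτ₀ hU1 h1 h2 (kf2_med h1 h1' (by omega) h2) h3)
    (by
      rw [hq]
      rintro k ⟨b, n, a, rfl⟩ hk0 c h1 h2 hk
      have hkD := hD b n a
      have hKk : Kk (kf2 Ty K₁ b n a) ≤ K := (hKZ _ (mem_range.2 hkD)).trans hKZ'
      obtain ⟨F, A, a1, a2, a3⟩ := h2
      obtain ⟨F', zs, b1, b2⟩ := hkidk _ hkD hk c.nc c.ne (XX c) F A a1 a2 c.bl c.wt
        (fun hf => (pow_le_pow_left₀ (hKk0 _).le hKk 2).trans (h1 hf))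
      refine ⟨F', b1, fun ψ hψ => ?_⟩
      obtain ⟨c1, c2, c3, c4, c5, c6⟩ := b2 ψ hψ
      exact cfc_k0' hk0 (kf2_big hK₁0.le hKK₁ h1) (a3 _ c1) (c2.trans hr₀g) c3
        (fun hf => ⟨cpu_mono (c4 hf).1 heρ heτ hr₀a, (c4 hf).2⟩) c5 c6)
    (by
      intro c h1 h1' h2 h3
      obtain ⟨s1, s2, s3, s4, s5⟩ := kf2_spec h2
      have hkD := hD c.bl (c.nc + 1) c.wt
      obtain ⟨hpk, -⟩ := hh _ (hadm _ _ _ h2).1 (hadm _ _ _ h2).2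
      have hmono : ∀ {X : ℕ → ℂ → ℂ} {F : ℂ → ℂ},
          GoodV e e (κk₁ (kf2 Ty K₁ c.bl (c.nc + 1) c.wt)) (cs (kf2 Ty K₁ c.bl (c.nc + 1) c.wt))
            (Cs' (kf2 Ty K₁ c.bl (c.nc + 1) c.wt)) 1 X F → GoodV e e κs c₁ C₁ 1 X F :=
        fun h => gv_mono h (hκsm.trans (hkm _ (mem_range.2 hkD)))
          (hc₁m.trans (hcm _ (mem_range.2 hkD))) ((hCM _ (mem_range.2 hkD)).trans hC₁M)
      rcases hpk with hpk | ⟨hn1, hpk⟩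
      · obtain ⟨Φ, a1, a2⟩ := h3 hpk
        have e1 : nk2 (kf2 Ty K₁ c.bl (c.nc + 1) c.wt) - 1 = c.nc := by rw [s2]; omega
        obtain ⟨F, zs, A, b1, b1', b2⟩ := (hst _ hkD).1 hpk c.ne (XX c) Φ (by rw [e1]; exact a1)
        rw [hq]
        refine zv_small (zs := zs) (Φ := Φ) (A := A)
          (q := ⟨ρ₀, τ₀, κ₀, ε₀, ρa, τa, e, κs, c₁, C₁, g⟩)
          h2 heg s1 rfl s3 (hmono b1) b1' fun ψ hψ => ?_
        obtain ⟨c1, c2, c3, c4, c5⟩ := b2 ψ hψ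
        exact ⟨c1, a2 _ c2, c3, c4, c5⟩
      · have hc1 : c.nc + 1 = 1 := by rw [← s2]; exact hn1
        obtain ⟨F, zs, A, b1, b1', b2⟩ := (hst _ hkD).2 hpk
        rw [hq]
        refine zv_small (zs := zs) (Φ := fun _ => 0) (A := A)
          (q := ⟨ρ₀, τ₀, κ₀, ε₀, ρa, τa, e, κs, c₁, C₁, g⟩) h2 heg s1 rfl s3
          (by rw [leaf_of hc1]; exact hmono b1)
          (by rw [leaf_of hc1, leaf_ne hc1]; exact b1') fun ψ hψ => ?_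
        obtain ⟨c1, c3, c4, c5⟩ := b2 ψ hψ
        refine ⟨c1, leaf_cf hc1 _ _, ?_, c4, c5⟩
        rw [deriv_const, add_zero]
        exact c3) t
  -- the root
  refine ⟨K, hK0, ?_⟩
  intro t ht hnc
  have hfin : ∀ (p : PB) (v : ℂ) (y' : ℕ → ℂ), p.shape = t →
      CG (kf2 Ty K₁) cen S s ρ₀ τ₀ g (kf2 Ty K₁ p.bl p.nc p.wt) p →
      VCG cen ρ₀ τ₀ g (kf2 Ty K₁ p.bl p.nc p.wt) p.bl p.wt p.rz
        (gg (kf2 Ty K₁) S s (kf2 Ty K₁ p.bl p.nc p.wt) p) →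
      vt p.bl p.wt p.rz + vg (kf2 Ty K₁) S s (kf2 Ty K₁ p.bl p.nc p.wt) p = v →
      y' 0 ≠ 0 →
      UX (fun N (_ : Unit) => (N : ℂ) ^ (2 * t.ne) * (Real.sqrt N : ℂ) *
        (-1) ^ (N * (t.ne + 1)) * Complex.exp (-(N * v)) * JT t N) (fun k _ => y' k) Set.univ →
      ∃ (V : ℝ) (v : ℂ) (y : ℕ → ℂ),
      IsGreatest {W : ℝ | ∃ y : AB, y.shape = t ∧ y.IsAng ∧ y.vol = W} V ∧
      2 * π * v.re = V ∧ y 0 ≠ 0 ∧ EXY (fun N : ℕ => jt t N (vN N)) v y ∧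
      ∀ t' : Tree, t = toTb t' → IsComplexVolume t' V v ∧ Unq t' V := by
    intro p v y' h1 h2 h3 h4 h5 hux
    have hpn : 1 ≤ p.nc := by rw [← shape_nc p, h1]; exact hnc
    obtain ⟨h6, h7⟩ := hgeo p h2 h3 hpn
    rw [h1, h4] at h6
    rw [h4] at h7
    obtain ⟨y, hy, h8⟩ := exy_of_ux t h5 hux
    refine ⟨_, _, y, h6, ?_, hy, h8, fun t' ht' => ?_⟩
    · rw [re_shift]
    · subst ht'
      exact h7 t' h1
  rcases ht with ⟨hbig, hok⟩ | ⟨⟨hbl, hty, hrt⟩, hok⟩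
  · have h1 := (hind t).1 hok
    obtain ⟨F, A, a1, a2, a3⟩ := h1
    rw [hq] at a1 a2 a3
    have hbig' : t.bl = false → KL ^ 2 ≤ (t.nc : ℝ) ^ 2 + (t.wt : ℝ) ^ 2 := fun hf =>
      (pow_le_pow_left₀ hKL0.le hKL 2).trans (hbig hf)
    rcases hb : t.bl with _ | _
    · obtain ⟨z, y, z1, z2, z3, z4⟩ := hlast t.nc t.ne (XX t) F A hnc a1 a2 t.wt (hbig' hb)
      obtain ⟨p, q1, q2, q3, q4⟩ := rt_02 (q := ⟨ρ₀, τ₀, κ₀, ε₀, e, e, κs, c₁, C₁, g⟩)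
        (kf2_big hK₁0.le hKK₁ hbig) (a3 z (rc_mono' (by show e ≤ 3 * e; linarith)
          (by show e ≤ 3 * e; linarith) z1.mem)) (fun hf => by
            rw [hb] at hf
            exact absurd hf (by simp))
        (fun hf => ⟨cpu_mono z1 heρ heτ hr₀a, z2⟩)
      refine hfin p _ y q1 q2 q3 q4 z3 ?_
      have e1 : vt t.bl t.wt z + F z = qq t.wt F z := by
        rw [hb]
        simp [vt, qq]
      rw [e1]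
      unfold JT
      rw [hb]
      exact z4
    · obtain ⟨y, z3, z4⟩ := hlastT t.nc t.ne (XX t) F A hnc a1 a2 t.wt
      obtain ⟨p, q1, q2, q3, q4⟩ := rt_02 (q := ⟨ρ₀, τ₀, κ₀, ε₀, e, e, κs, c₁, C₁, g⟩)
        (z := 0) (kf2_big hK₁0.le hKK₁ hbig) (a3 0 ⟨by simp; positivity, by simp; positivity⟩)
        (fun _ => rfl) (fun hf => by
            rw [hb] at hf
            exact absurd hf (by simp))
      refine hfin p _ y q1 q2 q3 q4 z3 ?_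
      have e1 : vt t.bl t.wt 0 + F 0 = F 0 + π * Complex.I := by
        rw [hb]
        simp only [vt, if_true]
        ring
      rw [e1]
      unfold JT
      rw [hb]
      exact z4
  · rcases Nat.eq_zero_or_pos (kf2 Ty K₁ t.bl t.nc t.wt) with hk | hk
    · have h1 := (hind t).2.1 hok
      obtain ⟨F, A, a1, a2, a3⟩ := h1
      rw [hq] at a1 a2 a3
      have h4 := kf2_med hbl hty hnc hk
      obtain ⟨z, y, z1, z2, z3, z4⟩ := hU2 t.nc t.ne (XX t) F A hnc a1 a2 t.wt h4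
      obtain ⟨p, q1, q2, q3, q4⟩ := rt_02 (q := ⟨ρ₀, τ₀, κ₀, ε₀, e, e, κs, c₁, C₁, g⟩)
        hk (a3 z (Rc_subU hρ₀ hτ₀ z1.mem)) (fun hf => by
            rw [hbl] at hf
            exact absurd hf (by simp))
        (fun _ => ⟨z1, z2⟩)
      refine hfin p _ y q1 q2 q3 q4 z3 ?_
      have e1 : vt t.bl t.wt z + F z = qq t.wt F z := by
        rw [hbl]
        simp [vt, qq]
      rw [e1]
      unfold JT
      rw [hbl]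
      exact z4
    · have hk0 : kf2 Ty K₁ t.bl t.nc t.wt ≠ 0 := hk.ne'
      obtain ⟨s1, s2, s3, s4, s5⟩ := kf2_spec hk0
      obtain ⟨-, hrt2⟩ := hh _ (hadm _ _ _ hk0).1 (hadm _ _ _ hk0).2
      obtain ⟨hkp, hroot⟩ := hrt2 (by rw [s2, s3]; exact hrt)
      obtain ⟨Φ, a1, a2⟩ := (hind t).2.2 _ ⟨_, _, _, rfl⟩ hk0 hok hkp
      rw [s2, s3] at hroot
      obtain ⟨z, y, z1, z2, z3, z4, z5⟩ := hroot t.ne (XX t) Φ a1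
      obtain ⟨p, q1, q2, q3, q4⟩ := rt_k2 (q := ⟨ρ₀, τ₀, κ₀, ε₀, e, e, κs, c₁, C₁, g⟩)
        hk0 rfl s1 (a2 z z2) z1 z3
      refine hfin p _ y q1 q2 q3 q4 z4 ?_
      have hJT : ∀ N, JT t N = upp (1 / N) fun φ => Ea t.wt N φ * XX t N φ * kr N φ := by
        intro N
        unfold JT
        rw [s1]
        congr 1
        funext φ
        unfold Eb
        simp
      simp only [hJT]
      exact z5

end Pool.Agent.N561.AX
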